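import Pool.Agent.K9h82.UC.CoreU
import Pool.Agent.K9h82.LW.Fin

/-!
# Subcomplexes
-/

set_option autoImplicit false

namespace Pool.Agent.K9h82.UC

open Pool.Agent.TH625.LOG Pool.Agent.N819.LT Pool.Agent.N819.UD
open Pool.Agent.K9h82.LW (bd_int ext_memK fin_extK subHom subHom_gen AllSub)

section

variable {V E : Type} [Fintype V] [Fintype E] [DecidableEq V]

/-- **The main lemma.** -/
theorem core_uni (M : LOG V E) (hM : M.Conn) (hcard : Fintype.card V = Fintype.card E + 1)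
    {X : Type} [LinearOrder X] (ρ : M.G →* (X ≃o X)) (hρ : LocInd ρ.range) (h m : X) (z : E → ℤ)
    (a : V → ℤ) (hz : ∀ w : E → ℤ, (∀ v, bd0 M.ini M.lab w v = 0) → ∃ c : ℤ, ∀ e, w e = c * z e)
    (ha : ∀ e, a (M.ini e) = a (M.lab e)) (D : Finset V) (hDne : D.Nonempty)
    (hD : D ⊆ WW M.ter M.lab a z)
    (hD1 : ∀ i ∈ D, ρ (M.gen i)⁻¹ h = m)
    (hD2 : ∀ i ∈ WW M.ter M.lab a z, i ∉ D → m < ρ (M.gen i)⁻¹ h)
    (hD3 : ∀ i ∈ D, ∀ j ∈ D,
      (QuotientGroup.mk (M.gen i) : M.G ⧸ Rad M.G) = QuotientGroup.mk (M.gen j) →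
      0 < tw M.ter M.lab a z i * tw M.ter M.lab a z j)
    (harc : ∀ u ∈ D, ∀ v ∈ D, u ≠ v → 0 < tw M.ter M.lab a z u * tw M.ter M.lab a z v →
      ∃ ζ : E → ℤ,
      (∀ w, bd0 M.ini M.lab ζ w = (if u = w then 1 else 0) - (if v = w then 1 else 0)) ∧
      (∀ w, tw M.ter M.lab a ζ w = 0 ∨ tw M.ter M.lab a ζ w = tw M.ter M.lab a z w) ∧
      ((tw M.ter M.lab a ζ u = 0 ∧ tw M.ter M.lab a ζ v = tw M.ter M.lab a z v) ∨
        (tw M.ter M.lab a ζ u = tw M.ter M.lab a z u ∧ tw M.ter M.lab a ζ v = 0)))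
    {G' : Type} [Group G'] (x : V → G') (f : G' →* M.G) (hf : ∀ v, f (x v) = M.gen v)
    (y : E → G' → ℤ) (hfin : {z : E × G' | y z.1 z.2 ≠ 0}.Finite)
    (hy : ∀ v g, bdZ x M.ini M.ter M.lab y v g = 0) (e : E) (g : G') : y e g = 0 := by
  by_contra hne
  obtain ⟨⟨e1, g1⟩, hg1, hmin1⟩ := Set.exists_min_image {z : E × G' | y z.1 z.2 ≠ 0}
    (fun z => Multiplicative.toAdd ((chi M).comp f z.2)) hfin ⟨(e, g), hne⟩
  have hcD : Canc x (tw M.ter M.lab a z) D := by
    refine canc_inj (locInd_rad M.G) ((QuotientGroup.mk' (Rad M.G)).comp f) x _ D hDne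
      (fun i hi => (mem_WW _ _ _ _ _).1 (hD hi)) ?_
    intro u hu v hv huv
    by_contra hne
    rw [MonoidHom.comp_apply, MonoidHom.comp_apply, hf, hf] at huv
    obtain ⟨ζ, h1, h2, h3⟩ := harc u hu v hv hne (hD3 u hu v hv huv)
    exact dist M hM hcard ρ hρ h m z a hz ha D hD hD1 hD2 hD3 u v hu hv ζ h1 h2 h3 huv
  have hcW : Canc x (tw M.ter M.lab a z) (WW M.ter M.lab a z) := by
    refine canc_W x (ρ.comp f) h m _ _ D hD ?_ ?_ hcD
    · intro i hi
      rw [MonoidHom.comp_apply, map_inv, hf]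
      exact hD1 i hi
    · intro i hi hi'
      rw [MonoidHom.comp_apply, map_inv, hf]
      exact hD2 i hi hi'
  obtain ⟨i0, hi0⟩ := hDne
  refine hg1 (solve x ((chi M).comp f) (fun v => by
    rw [MonoidHom.comp_apply, hf]; exact chi_gen M v) M.ini M.ter M.lab y
    (Multiplicative.toAdd ((chi M).comp f g1)) (fun e g h => hmin1 (e, g) h) hfin z a hz ha
    ⟨i0, (mem_WW _ _ _ _ _).1 (hD hi0)⟩ hcW (fun g _ v => hy v g) ?_ e1 g1 rfl)
  intro k _
  refine Finset.sum_eq_zero fun v _ => ?_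
  rw [hy, hy, sub_zero, mul_zero]

omit [Fintype V] in
theorem bdZ_ext {G : Type} [Group G] (S : Set E)
    [Fintype S] (x : V → G) (p q lab : E → V) (y : S → G → ℤ) (y' : E → G → ℤ)
    (h1 : ∀ (e : S) g, y' e g = y e g) (h2 : ∀ e, e ∉ S → ∀ g, y' e g = 0) (v : V) (g : G) :
    bdZ x p q lab y' v g =
      bdZ x (fun e : S => p e) (fun e : S => q e) (fun e : S => lab e) y v g := by
  symm
  refine Fintype.sum_of_injective (fun e : S => (e : E)) Subtype.val_injective _ _ ?_ ?_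
  · intro e he
    have he' : e ∉ S := fun h => he ⟨⟨e, h⟩, rfl⟩
    simp only [h2 e he', ite_self, add_zero, sub_zero]
  · intro e
    simp only [h1]

omit [Fintype V] in
theorem sub_ini (L : LOG V E) (S' : Set E)
    (hcore : ∀ y : E → (sub L S').G → ℤ, {z : E × (sub L S').G | y z.1 z.2 ≠ 0}.Finite →
      (∀ v g, bdZ (sub L S').gen L.ini L.ter L.lab y v g = 0) → ∀ e g, y e g = 0)
    (c : (S' × (sub L S').G) →₀ ℤ) (hc : (sub L S').bdry c = 0) : c = 0 := by
  classical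
  obtain ⟨y', h1, h2⟩ := ext_memK S' (fun (e : S') g => c (e, g))
  have h3 := hcore y' (fin_extK S' _ y' h1 h2 (by
    refine (c.support.finite_toSet).subset fun z hz => ?_
    rw [Finset.mem_coe, Finsupp.mem_support_iff]
    exact hz)) (by
    intro v g
    rw [bdZ_ext S' _ _ _ _ _ y' h1 h2]
    have h4 := bd_int (sub L S') c v g
    rw [hc] at h4
    exact h4.symm)
  ext ⟨e, g⟩
  have h4 := h3 e g
  rw [h1] at h4
  exact h4

omit [Fintype V] in
theorem bdZ_rev (L : LOG V E) (y : E → L.G → ℤ) (v : V) (g : L.G) :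
    bdZ (fun v => (L.gen v)⁻¹) L.ter L.ini L.lab
      (fun e g => y e (g * (L.gen (L.lab e))⁻¹ * (L.gen (L.ini e))⁻¹)) v g =
      - bdZ L.gen L.ini L.ter L.lab y v (g * (L.gen v)⁻¹) := by
  unfold bdZ
  rw [← Finset.sum_neg_distrib]
  refine Finset.sum_congr rfl fun e _ => ?_
  have t1 : (if L.ter e = v then y e (g * (L.gen (L.lab e))⁻¹ * (L.gen (L.ini e))⁻¹) else 0) =
      if L.ter e = v then y e (g * (L.gen v)⁻¹ * (L.gen (L.lab e))⁻¹) else 0 := by
    split_ifs with h1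
    · subst h1
      rw [rel_inv]
    · rfl
  have t2 : (if L.lab e = v then y e (g * ((L.gen (L.ter e))⁻¹)⁻¹ * (L.gen (L.lab e))⁻¹ *
        (L.gen (L.ini e))⁻¹) else 0) =
      if L.lab e = v then y e (g * (L.gen v)⁻¹) else 0 := by
    split_ifs with h1
    · subst h1
      rw [rel_inv, inv_inv, mul_inv_cancel_right]
    · rfl
  have t3 : (if L.lab e = v then y e (g * (L.gen (L.lab e))⁻¹ * (L.gen (L.ini e))⁻¹) else 0) =
      if L.lab e = v then y e (g * (L.gen v)⁻¹ * (L.gen (L.ini e))⁻¹) else 0 := by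
    split_ifs with h1
    · subst h1
      rfl
    · rfl
  have t4 : (if L.ini e = v then y e (g * ((L.gen (L.lab e))⁻¹)⁻¹ * (L.gen (L.lab e))⁻¹ *
        (L.gen (L.ini e))⁻¹) else 0) =
      if L.ini e = v then y e (g * (L.gen v)⁻¹) else 0 := by
    split_ifs with h1
    · subst h1
      rw [inv_inv, mul_inv_cancel_right]
    · rfl
  rw [t1, t2, t3, t4]
  ring

omit [Fintype V] in
theorem sub_ter (L : LOG V E) (S' : Set E)
    (hcore : ∀ y : E → (sub L S').G → ℤ, {z : E × (sub L S').G | y z.1 z.2 ≠ 0}.Finite →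
      (∀ v g, bdZ (fun v => ((sub L S').gen v)⁻¹) L.ter L.ini L.lab y v g = 0) →
        ∀ e g, y e g = 0)
    (c : (S' × (sub L S').G) →₀ ℤ) (hc : (sub L S').bdry c = 0) : c = 0 := by
  classical
  let M := sub L S'
  let y1 : S' → M.G → ℤ := fun e g => c (e, g * (M.gen (M.lab e))⁻¹ * (M.gen (M.ini e))⁻¹)
  obtain ⟨y', h1, h2⟩ := ext_memK S' y1
  have hfin1 : {z : S' × M.G | y1 z.1 z.2 ≠ 0}.Finite := by
    refine ((c.support.finite_toSet).preimage (f := fun z : S' × M.G =>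
      (z.1, z.2 * (M.gen (M.lab z.1))⁻¹ * (M.gen (M.ini z.1))⁻¹)) ?_).subset ?_
    · rintro ⟨e, g⟩ - ⟨e', g'⟩ - heq
      simp only [Prod.mk.injEq] at heq
      obtain ⟨rfl, h5⟩ := heq
      rw [mul_left_inj, mul_left_inj] at h5
      rw [h5]
    · intro z hz
      exact Finsupp.mem_support_iff.2 hz
  have h3 := hcore y' (fin_extK S' _ y' h1 h2 hfin1) (by
    intro v g
    rw [bdZ_ext S' _ _ _ _ _ y' h1 h2]
    have h4 := bd_int M c v (g * (M.gen v)⁻¹)
    rw [hc] at h4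
    have h5 := bdZ_rev M (fun e g => c (e, g)) v g
    have h6 : bdZ M.gen M.ini M.ter M.lab (fun e g => c (e, g)) v (g * (M.gen v)⁻¹) = 0 := h4.symm
    rw [h6, neg_zero] at h5
    exact h5)
  ext ⟨e, g⟩
  have h4 := h3 e (g * M.gen (M.ini e) * M.gen (M.lab e))
  rw [h1] at h4
  have h5 : y1 e (g * M.gen (M.ini e) * M.gen (M.lab e)) = c (e, g) := by
    change c (e, g * M.gen (M.ini e) * M.gen (M.lab e) * (M.gen (M.lab e))⁻¹ *
      (M.gen (M.ini e))⁻¹) = c (e, g)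
    rw [mul_inv_cancel_right, mul_inv_cancel_right]
  rw [h5] at h4
  exact h4

/-- All edges are reversed. -/
def revL {V E : Type} (L : LOG V E) : LOG V E := ⟨L.ter, L.ini, L.lab⟩

/-- the homomorphism to the group of the reversed graph -/
def revHom (L : LOG V E) (S' : Set E) : (sub L S').G →* (revL L).G :=
  PresentedGroup.toGroup (f := fun v => ((revL L).gen v)⁻¹) (by
    rintro _ ⟨e, rfl⟩
    have h1 := Pool.Agent.N819.UD.gen_rel (revL L) e
    have h2 : (revL L).gen (L.ter e) * (revL L).gen (L.lab e) =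
      (revL L).gen (L.lab e) * (revL L).gen (L.ini e) := h1
    simp only [LOG.rel, map_mul, map_inv, FreeGroup.lift_apply_of, inv_inv]
    change ((revL L).gen (L.ini e))⁻¹ * ((revL L).gen (L.lab e))⁻¹ * (revL L).gen (L.ter e) *
      (revL L).gen (L.lab e) = 1
    rw [← mul_inv_rev, ← h2]
    group)

theorem revHom_gen (L : LOG V E) (S' : Set E) (v : V) :
    revHom L S' ((sub L S').gen v) = ((revL L).gen v)⁻¹ :=
  PresentedGroup.toGroup.of _

theorem rev_conn (L : LOG V E) (hL : L.Conn) : (revL L).Conn := by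
  intro x y
  have h1 : ∀ a b, L.Adj a b → (revL L).Adj a b := by
    rintro a b ⟨e, h | h⟩
    · exact ⟨e, Or.inr h⟩
    · exact ⟨e, Or.inl h⟩
  exact Relation.ReflTransGen.mono h1 x y (hL x y)

end

end Pool.Agent.K9h82.UC
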