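import Pool.Agent.K9h82.UC.Lev

/-!
# Unicyclic initial graphs: the generators at the extremal crossings are distinct modulo the radical
-/

set_option autoImplicit false

namespace Pool.Agent.K9h82.UC

open Pool.Agent.TH625.LOG Pool.Agent.N819.UD

section solve

variable {V E G : Type} [Fintype V] [Fintype E] [DecidableEq V] [Group G]

/-- the generators which occur in the leading form -/
def WW (q lab : E → V) (a : V → ℤ) (z : E → ℤ) : Finset V :=
  Finset.univ.filter fun w => tw q lab a z w ≠ 0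

theorem mem_WW (q lab : E → V) (a : V → ℤ) (z : E → ℤ) (w : V) :
    w ∈ WW q lab a z ↔ tw q lab a z w ≠ 0 := by
  unfold WW
  rw [Finset.mem_filter]
  exact ⟨fun h => h.2, fun h => ⟨Finset.mem_univ _, h⟩⟩

theorem sum_WW (q lab : E → V) (a : V → ℤ) (z : E → ℤ) (f : V → ℤ) :
    ∑ w ∈ WW q lab a z, tw q lab a z w * f w = ∑ w, tw q lab a z w * f w := by
  refine Finset.sum_subset (Finset.subset_univ _) fun w _ hw => ?_
  rw [mem_WW, not_not] at hw
  rw [hw, zero_mul]

theorem exists_edge (q lab : E → V) (a : V → ℤ) (z : E → ℤ) (w : V)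
    (h : tw q lab a z w ≠ 0) : ∃ e, z e ≠ 0 := by
  by_contra hcon
  push Not at hcon
  apply h
  unfold tw
  refine Finset.sum_eq_zero fun e _ => ?_
  rw [hcon e, zero_mul, ite_self]

theorem fin_of (e0 : E) (c : G → ℤ) (y : E → G → ℤ) (hfin : {z : E × G | y z.1 z.2 ≠ 0}.Finite)
    (h : ∀ g, c g ≠ 0 → y e0 g ≠ 0 ∨ g = 1) : {g | c g ≠ 0}.Finite := by
  refine ((hfin.image Prod.snd).union (Set.finite_singleton (1 : G))).subset ?_
  intro g hg
  rcases h g hg with h1 | h1
  · exact Or.inl ⟨(e0, g), h1, rfl⟩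
  · exact Or.inr h1

variable (x : V → G) (χ : G →* Multiplicative ℤ)
  (hχ : ∀ v, χ (x v) = Multiplicative.ofAdd 1) (p q lab : E → V) (y : E → G → ℤ)
  (d : ℤ) (hmin : ∀ e g, y e g ≠ 0 → d ≤ Multiplicative.toAdd (χ g))

include hχ hmin in
/-- no homogeneous solutions in the lowest degree -/
theorem solve (hfin : {z : E × G | y z.1 z.2 ≠ 0}.Finite) (z : E → ℤ) (a : V → ℤ)
    (hz : ∀ w : E → ℤ, (∀ v, bd0 p lab w v = 0) → ∃ c : ℤ, ∀ e, w e = c * z e)
    (ha : ∀ e, a (p e) = a (lab e)) (hne : ∃ w, tw q lab a z w ≠ 0)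
    (hc : Canc x (tw q lab a z) (WW q lab a z))
    (h1 : ∀ g, Multiplicative.toAdd (χ g) = d → ∀ v, bdZ x p q lab y v g = 0)
    (h2 : ∀ h, Multiplicative.toAdd (χ h) = d + 1 →
      ∑ v, a v * (bdZ x p q lab y v h - bdZ x p q lab y v (h * (x v)⁻¹)) = 0) (e : E) (g : G)
    (hg : Multiplicative.toAdd (χ g) = d) : y e g = 0 := by
  classical
  obtain ⟨w0, hw0⟩ := hne
  obtain ⟨e0, he0⟩ := exists_edge q lab a z w0 hw0
  have h3 : ∀ g, ∃ c : ℤ, (Multiplicative.toAdd (χ g) = d → ∀ e, y e g = c * z e) ∧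
      (Multiplicative.toAdd (χ g) ≠ d → c = 0) := by
    intro g
    by_cases hg : Multiplicative.toAdd (χ g) = d
    · obtain ⟨c, hc⟩ := hz (fun e => y e g) (fun v => by
        rw [← lev_one x χ hχ p q lab y d hmin g hg v]
        exact h1 g hg v)
      exact ⟨c, fun _ => hc, fun h => absurd hg h⟩
    · exact ⟨0, fun h => absurd h hg, fun _ => rfl⟩
  choose c hc1 hc2 using h3
  have hcz := hc c (fin_of e0 c y hfin (fun g hg => by
    by_cases hd : Multiplicative.toAdd (χ g) = d
    · left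
      rw [hc1 g hd e0]
      exact mul_ne_zero hg he0
    · exact absurd (hc2 g hd) hg)) (by
    intro h
    rw [sum_WW]
    by_cases hh : Multiplicative.toAdd (χ h) = d + 1
    · have h4 := lev_two x χ hχ p q lab y d hmin a ha h hh
      rw [h2 h hh, sum_tw x q lab a z (fun _ => 0) c (fun _ => 0) y h (fun e => by
        rw [hc1 _ (by rw [deg_inv x χ hχ]; omega) e]; ring)] at h4
      simpa using h4
    · refine Finset.sum_eq_zero fun w _ => ?_
      rw [hc2 (h * (x w)⁻¹) (by rw [deg_inv x χ hχ]; omega), mul_zero])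
  rw [hc1 g hg e, hcz, zero_mul]

theorem canc_W {X : Type} [LinearOrder X] (ρ : G →* (X ≃o X)) (h m : X) (n : V → ℤ)
    (W D : Finset V) (hD : D ⊆ W) (hD1 : ∀ i ∈ D, ρ (x i)⁻¹ h = m)
    (hD2 : ∀ i ∈ W, i ∉ D → m < ρ (x i)⁻¹ h) (hc : Canc x n D) : Canc x n W := by
  refine canc_face x n W D hD (fun g => ρ g h) (fun g => ρ g m) ?_ ?_ hc
  · intro g i hi
    rw [← hD1 i hi, map_mul]
    rfl
  · intro g i hi hi'
    rw [map_mul]
    exact (ρ g).strictMono (hD2 i hi hi')

end solve

section dist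

variable {V E : Type} [Fintype V] [Fintype E] [DecidableEq V]

omit [Fintype V] [Fintype E] in
theorem coeff_fx {Q : Type} [Group Q] (L : LOG V E) (π : FreeGroup V →* Q) (e : E)
    (h : π (L.rel e) = 1) (β : MonoidAlgebra ℤ Q) (v : V) (g : Q) :
    (β * fx L π e v).coeff g =
      (if L.ini e = v then β.coeff g else 0) +
      (if L.lab e = v then β.coeff (g * (π (FreeGroup.of (L.ini e)))⁻¹) else 0) -
      (if L.lab e = v then β.coeff g else 0) -
      (if L.ter e = v then β.coeff (g * (π (FreeGroup.of (L.lab e)))⁻¹) else 0) := by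
  have h1 : ∀ u : V, (Pi.single u 1 : V → MonoidAlgebra ℤ Q) v = if u = v then 1 else 0 := by
    intro u
    rw [Pi.single_apply]
    by_cases h2 : v = u
    · rw [if_pos h2, if_pos h2.symm]
    · rw [if_neg h2, if_neg fun h3 => h2 h3.symm]
  have h2 : ∀ a : Q, (β * MonoidAlgebra.of ℤ Q a).coeff g = β.coeff (g * a⁻¹) := by
    intro a
    rw [MonoidAlgebra.of_apply, MonoidAlgebra.coeff_mul_single_apply, mul_one]
  rw [fx_eq L π e h]
  simp only [Pi.sub_apply, Pi.add_apply, Pi.smul_apply, smul_eq_mul, h1]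
  by_cases ha : L.ini e = v <;> by_cases hb : L.lab e = v <;> by_cases hc : L.ter e = v <;>
    simp only [ha, hb, hc, if_true, if_false, mul_add, mul_sub, mul_one, mul_zero, h2,
      MonoidAlgebra.coeff_add, MonoidAlgebra.coeff_sub, Finsupp.add_apply, Finsupp.sub_apply,
      MonoidAlgebra.coeff_zero, Finsupp.zero_apply] <;> ring

theorem bd_chain (L : LOG V E) (u v : V)
    (β : E → MonoidAlgebra ℤ (L.G ⧸ Rad L.G))
    (hβ : ∑ e, β e • fx L (prj L (Rad L.G)) e = Pi.single u 1 - Pi.single v 1) (w : V)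
    (g : L.G ⧸ Rad L.G) [DecidableEq (L.G ⧸ Rad L.G)] :
    bdZ (fun v => (QuotientGroup.mk (L.gen v) : L.G ⧸ Rad L.G)) L.ini L.ter L.lab
      (fun e g => (β e).coeff g) w g =
      ((if u = w then 1 else 0) - (if v = w then 1 else 0)) * (if g = 1 then 1 else 0) := by
  have h1 := congrArg (fun F : V → MonoidAlgebra ℤ (L.G ⧸ Rad L.G) => (F w).coeff g) hβ
  simp only [Finset.sum_apply, Pi.smul_apply, smul_eq_mul, Pi.sub_apply] at h1
  have h2 : (∑ e, β e * fx L (prj L (Rad L.G)) e w).coeff g =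
      ∑ e, (β e * fx L (prj L (Rad L.G)) e w).coeff g := by
    have h3 : ∀ s : Finset E, (∑ e ∈ s, β e * fx L (prj L (Rad L.G)) e w).coeff g =
        ∑ e ∈ s, (β e * fx L (prj L (Rad L.G)) e w).coeff g := by
      intro s
      classical
      induction s using Finset.induction_on with
      | empty => simp
      | insert e s he ih =>
        rw [Finset.sum_insert he, Finset.sum_insert he, MonoidAlgebra.coeff_add,
          Finsupp.add_apply, ih]
    exact h3 _
  rw [h2] at h1
  have h4 : ∀ u : V, ((Pi.single u 1 : V → MonoidAlgebra ℤ (L.G ⧸ Rad L.G)) w).coeff g =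
      (if u = w then 1 else 0) * (if g = 1 then 1 else 0) := by
    intro u
    rw [Pi.single_apply]
    by_cases h2 : w = u
    · rw [if_pos h2, if_pos h2.symm, one_mul, MonoidAlgebra.one_def, MonoidAlgebra.coeff_single,
        Finsupp.single_apply]
      by_cases h3 : g = 1
      · rw [if_pos h3, if_pos h3.symm]
      · rw [if_neg h3, if_neg fun h => h3 h.symm]
    · rw [if_neg h2, if_neg fun h3 => h2 h3.symm, zero_mul]
      rfl
  rw [MonoidAlgebra.coeff_sub, Finsupp.sub_apply, h4, h4] at h1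
  rw [sub_mul, ← h1]
  unfold bdZ
  refine Finset.sum_congr rfl fun e _ => ?_
  rw [coeff_fx L _ e (prj_rel L _ e)]
  rfl

/-- **The key lemma**, in a locally indicable group. -/
theorem dist_core {Q : Type} [Group Q] [DecidableEq Q] (hQ : LocInd Q) (x : V → Q)
    (χ : Q →* Multiplicative ℤ) (hχ : ∀ v, χ (x v) = Multiplicative.ofAdd 1) (p q lab : E → V)
    {X : Type} [LinearOrder X] (R : Q →* (X ≃o X)) (h m : X) (z : E → ℤ) (a : V → ℤ)
    (hz : ∀ w : E → ℤ, (∀ v, bd0 p lab w v = 0) → ∃ c : ℤ, ∀ e, w e = c * z e)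
    (ha : ∀ e, a (p e) = a (lab e)) (D : Finset V) (hD : D ⊆ WW q lab a z)
    (hD1 : ∀ i ∈ D, R (x i)⁻¹ h = m)
    (hD2 : ∀ i ∈ WW q lab a z, i ∉ D → m < R (x i)⁻¹ h)
    (hD3 : ∀ i ∈ D, ∀ j ∈ D, x i = x j → 0 < tw q lab a z i * tw q lab a z j) (u v : V)
    (hu : u ∈ D) (hv : v ∈ D) (ζ : E → ℤ)
    (hζ : ∀ w, bd0 p lab ζ w = (if u = w then 1 else 0) - (if v = w then 1 else 0))
    (hT : ∀ w, tw q lab a ζ w = 0 ∨ tw q lab a ζ w = tw q lab a z w)
    (hTuv : (tw q lab a ζ u = 0 ∧ tw q lab a ζ v = tw q lab a z v) ∨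
      (tw q lab a ζ u = tw q lab a z u ∧ tw q lab a ζ v = 0))
    (hxuv : x u = x v) (b : E → Q → ℤ) (hfin : {z : E × Q | b z.1 z.2 ≠ 0}.Finite)
    (hb : ∀ w g, bdZ x p q lab b w g =
      ((if u = w then 1 else 0) - (if v = w then 1 else 0)) * (if g = 1 then 1 else 0)) :
    False := by
  classical
  -- the function `a`
  have hauv : a u = a v := by
    have h1 := pair_bd0 p lab a ha ζ
    simp only [hζ, mul_sub, mul_ite, mul_one, mul_zero, Finset.sum_sub_distrib,
      Finset.sum_ite_eq, Finset.mem_univ, if_true] at h1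
    omega
  have hsum : ∀ g : Q, ∑ w, a w * (bdZ x p q lab b w g -
      bdZ x p q lab b w (g * (x w)⁻¹)) = 0 := by
    intro g
    have h1 : ∀ w, a w * (bdZ x p q lab b w g -
      bdZ x p q lab b w (g * (x w)⁻¹)) =
        (if u = w then a w * ((if g = 1 then 1 else 0) - (if g * (x w)⁻¹ = 1 then 1 else 0)) else 0) -
        (if v = w then a w * ((if g = 1 then 1 else 0) - (if g * (x w)⁻¹ = 1 then 1 else 0)) else 0)
        := by
      intro w
      rw [hb, hb]
      split_ifs <;> ring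
    simp only [h1, Finset.sum_sub_distrib, Finset.sum_ite_eq, Finset.mem_univ, if_true]
    rw [hauv, hxuv, sub_self]
  -- cancellability
  have hne : ∃ w, tw q lab a z w ≠ 0 := ⟨u, (mem_WW _ _ _ _ _).1 (hD hu)⟩
  have hcD : ∀ J ⊆ D, J.Nonempty → Canc x (tw q lab a z) J :=
    fun J hJ hne => canc_sign hQ x _ J hne fun i hi j hj => hD3 i (hJ hi) j (hJ hj)
  have hcW : Canc x (tw q lab a z) (WW q lab a z) :=
    canc_W x R h m _ _ D hD hD1 hD2 (hcD D (Finset.Subset.refl _) ⟨u, hu⟩)
  -- degrees are nonnegative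
  have hdeg : ∀ e g, b e g ≠ 0 → 0 ≤ Multiplicative.toAdd (χ g) := by
    intro e g hg
    obtain ⟨⟨e1, g1⟩, hg1, hmin1⟩ := Set.exists_min_image {z : E × Q | b z.1 z.2 ≠ 0}
      (fun z => Multiplicative.toAdd (χ z.2)) hfin ⟨(e, g), hg⟩
    refine le_trans ?_ (hmin1 (e, g) hg)
    by_contra hneg
    push Not at hneg
    simp only at hneg
    apply hg1
    refine solve x χ hχ p q lab b (Multiplicative.toAdd (χ g1))
      (fun e g h => hmin1 (e, g) h) hfin z a hz ha hne hcW ?_ ?_ e1 g1 rfl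
    · intro g' hg' w
      have hg1' : g' ≠ 1 := by
        rintro rfl
        rw [map_one, toAdd_one] at hg'
        omega
      rw [hb, if_neg hg1', mul_zero]
    · intro g' _
      exact hsum g'
  -- degree zero
  have h3 : ∀ g, ∃ c : ℤ, (Multiplicative.toAdd (χ g) = 0 →
      ∀ e, b e g = c * z e + (if g = 1 then 1 else 0) * ζ e) ∧
      (Multiplicative.toAdd (χ g) ≠ 0 → c = 0) := by
    intro g
    by_cases hg : Multiplicative.toAdd (χ g) = 0
    · obtain ⟨c, hc⟩ := hz (fun e => b e g - (if g = 1 then 1 else 0) * ζ e) (fun w => by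
        rw [bd0_sub, bd0_mul, ← lev_one x χ hχ p q lab b 0 hdeg g hg w, hb, hζ]
        ring)
      refine ⟨c, fun _ e => ?_, fun h => absurd hg h⟩
      rw [← hc e]
      ring
    · exact ⟨0, fun h => absurd h hg, fun _ => rfl⟩
  choose c hc1 hc2 using h3
  obtain ⟨w0, hw0⟩ := hne
  obtain ⟨e0, he0⟩ := exists_edge q lab a z w0 hw0
  have hcfin : {g | c g ≠ 0}.Finite := fin_of e0 c b hfin (fun g hg => by
    by_cases hd : Multiplicative.toAdd (χ g) = 0
    · by_cases hg1 : g = 1
      · exact Or.inr hg1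
      · left
        rw [hc1 g hd e0, if_neg hg1, zero_mul, add_zero]
        exact mul_ne_zero hg he0
    · exact absurd (hc2 g hd) hg)
  have heq : ∀ g, ∑ w ∈ WW q lab a z, tw q lab a z w * c (g * (x w)⁻¹) =
      - ∑ w ∈ WW q lab a z, if g = x w then tw q lab a ζ w else 0 := by
    intro g
    rw [sum_WW]
    have h5 : ∑ w ∈ WW q lab a z, (if g = x w then tw q lab a ζ w else 0) =
        ∑ w, if g = x w then tw q lab a ζ w else 0 := by
      refine Finset.sum_subset (Finset.subset_univ _) fun w _ hw => ?_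
      rw [mem_WW, not_not] at hw
      have h6 : tw q lab a ζ w = 0 := by
        rcases hT w with h7 | h7
        · exact h7
        · rw [h7, hw]
      rw [h6, ite_self]
    rw [h5]
    by_cases hg : Multiplicative.toAdd (χ g) = 0 + 1
    · have h4 := lev_two x χ hχ p q lab b 0 hdeg a ha g hg
      rw [hsum, sum_tw x q lab a z ζ c (fun g => if g = 1 then 1 else 0) b g
        (fun e => hc1 _ (by rw [deg_inv x χ hχ]; omega) e)] at h4
      have h6 : ∑ w, tw q lab a ζ w * (if g * (x w)⁻¹ = 1 then (1 : ℤ) else 0) =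
          ∑ w, if g = x w then tw q lab a ζ w else 0 := by
        refine Finset.sum_congr rfl fun w _ => ?_
        simp only [mul_inv_eq_one, mul_ite, mul_one, mul_zero]
      rw [h6] at h4
      omega
    · rw [Finset.sum_eq_zero, Finset.sum_eq_zero, neg_zero]
      · intro w _
        refine if_neg fun h6 => hg ?_
        rw [h6, hχ]
        rfl
      · intro w _
        rw [hc2 (g * (x w)⁻¹) (by rw [deg_inv x χ hχ]; omega), mul_zero]
  -- the levels
  have hl1 : ∀ g : Q, ∀ i ∈ D, R (g * (x i)⁻¹) h = R g m := by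
    intro g i hi
    rw [← hD1 i hi, map_mul]
    rfl
  have hl2 : ∀ g : Q, ∀ i ∈ WW q lab a z, i ∉ D → R g m < R (g * (x i)⁻¹) h := by
    intro g i hi hi'
    rw [map_mul]
    exact (R g).strictMono (hD2 i hi hi')
  have hxm : ∀ i ∈ WW q lab a z, R (x i) m ≤ h := by
    intro i hi
    have h6 : R (x i) (R (x i)⁻¹ h) = h := by
      change (R (x i) * R (x i)⁻¹) h = h
      rw [← map_mul, mul_inv_cancel, map_one]
      rfl
    by_cases hi' : i ∈ D
    · rw [hD1 i hi'] at h6
      exact le_of_eq h6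
    · have h7 := (R (x i)).strictMono (hD2 i hi hi')
      rw [h6] at h7
      exact le_of_lt h7
  have hxm' : ∀ i ∈ WW q lab a z, i ∉ D → R (x i) m < h := by
    intro i hi hi'
    have h6 : R (x i) (R (x i)⁻¹ h) = h := by
      change (R (x i) * R (x i)⁻¹) h = h
      rw [← map_mul, mul_inv_cancel, map_one]
      rfl
    have h7 := (R (x i)).strictMono (hD2 i hi hi')
    rw [h6] at h7
    exact h7
  have hxm'' : ∀ i ∈ D, R (x i) m = h := by
    intro i hi
    have h6 : R (x i) (R (x i)⁻¹ h) = h := by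
      change (R (x i) * R (x i)⁻¹) h = h
      rw [← map_mul, mul_inv_cancel, map_one]
      rfl
    rw [hD1 i hi] at h6
    exact h6
  have hlev : ∀ g, c g ≠ 0 → R g h ≤ h := by
    intro g hg
    obtain ⟨g1, hg1, hmax⟩ := Set.exists_max_image {g | c g ≠ 0} (fun g => R g h) hcfin ⟨g, hg⟩
    refine le_trans (hmax g hg) ?_
    by_contra hpos
    push Not at hpos
    have hz0 := hcD D (Finset.Subset.refl _) ⟨u, hu⟩
      (fun g => if R g h = R g1 h then c g else 0) (hcfin.subset (by
        intro g hg h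
        apply hg
        simp only [h, ite_self])) (by
        intro g
        have h4 := face x (tw q lab a z) (WW q lab a z) D hD (fun g => R g h)
          (fun g => R g m) hl1 hl2 c _ heq (R g1 h) (fun g hg => hmax g hg) g
        refine Eq.trans h4 ?_
        by_cases h5 : R g m = R g1 h
        · rw [if_pos h5, neg_eq_zero]
          refine Finset.sum_eq_zero fun i hi => ?_
          refine if_neg fun h6 => ?_
          rw [h6] at h5
          have h7 := hxm i hi
          rw [h5] at h7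
          exact absurd h7 (not_le.2 hpos)
        · rw [if_neg h5]) g1
    simp only [if_true] at hz0
    exact hg1 hz0
  have hD' : ∀ g, ∑ i ∈ D, tw q lab a z i *
      (fun g => - (if R g h = h then c g else 0)) (g * (x i)⁻¹) =
      ∑ i ∈ D, if g = x i then tw q lab a ζ i else 0 := by
    intro g
    have h4 := face x (tw q lab a z) (WW q lab a z) D hD (fun g => R g h)
          (fun g => R g m) hl1 hl2 c _ heq h hlev g
    simp only [mul_neg, Finset.sum_neg_distrib]
    rw [h4]
    by_cases h5 : R g m = h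
    · rw [if_pos h5, neg_neg]
      symm
      refine Finset.sum_subset hD fun i hi hi' => ?_
      refine if_neg fun h6 => ?_
      rw [h6] at h5
      exact absurd h5 (ne_of_lt (hxm' i hi hi'))
    · rw [if_neg h5, neg_zero]
      symm
      refine Finset.sum_eq_zero fun i hi => ?_
      refine if_neg fun h6 => h5 ?_
      rw [h6]
      exact hxm'' i hi
  -- the products of the values at `i` with the value at `j`
  have hprod : ∀ i ∈ D, ∀ j ∈ D, x i = x j →
      0 ≤ tw q lab a z i * tw q lab a ζ j ∧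
        tw q lab a z i * tw q lab a ζ j ≤ tw q lab a z i * tw q lab a z j := by
    intro i hi j hj hij
    have h5 := hD3 i hi j hj hij
    rcases hT j with h6 | h6
    · rw [h6, mul_zero]
      exact ⟨le_rfl, le_of_lt h5⟩
    · rw [h6]
      exact ⟨le_of_lt h5, le_rfl⟩
  have hne0 : ∀ i ∈ D, tw q lab a z i ≠ 0 := fun i hi => (mem_WW _ _ _ _ _).1 (hD hi)
  rcases core hQ x (tw q lab a z) (tw q lab a ζ) _ D rfl ⟨u, hu⟩ hD3 (fun i _ => hT i)
    (fun g => - (if R g h = h then c g else 0)) (hcfin.subset (by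
      intro g hg h
      apply hg
      simp only [h, ite_self, neg_zero])) hD' with h5 | h5
  · have h6 := hD' (x u)
    simp only [h5, mul_zero, Finset.sum_const_zero] at h6
    have h7 : ∑ i ∈ D, (if x u = x i then tw q lab a z u * tw q lab a ζ i else 0) = 0 := by
      have h8 : ∑ i ∈ D, (if x u = x i then tw q lab a z u * tw q lab a ζ i else 0) =
          tw q lab a z u * ∑ i ∈ D, (if x u = x i then tw q lab a ζ i else 0) := by
        rw [Finset.mul_sum]
        refine Finset.sum_congr rfl fun i _ => ?_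
        rw [mul_ite, mul_zero]
      rw [h8, ← h6, mul_zero]
    have h8 := (Finset.sum_eq_zero_iff_of_nonneg (fun i hi => by
      split_ifs with h9
      · exact (hprod u hu i hi h9).1
      · exact le_rfl)).1 h7
    have hu8 := h8 u hu
    have hv8 := h8 v hv
    rw [if_pos rfl] at hu8
    rw [if_pos hxuv] at hv8
    have hu9 := (mul_eq_zero.1 hu8).resolve_left (hne0 u hu)
    have hv9 := (mul_eq_zero.1 hv8).resolve_left (hne0 u hu)
    rcases hTuv with ⟨-, h9⟩ | ⟨h9, -⟩
    · exact hne0 v hv (by rw [← h9, hv9])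
    · exact hne0 u hu (by rw [← h9, hu9])
  · have h6 := hD' (x u)
    simp only [h5] at h6
    have h7 : ∑ i ∈ D, (if x u = x i then tw q lab a z u * tw q lab a z i -
        tw q lab a z u * tw q lab a ζ i else 0) = 0 := by
      have h8 : ∑ i ∈ D, (if x u = x i then tw q lab a z u * tw q lab a z i -
          tw q lab a z u * tw q lab a ζ i else 0) =
          tw q lab a z u * (∑ i ∈ D, tw q lab a z i * (if x u * (x i)⁻¹ = 1 then 1 else 0) -
          ∑ i ∈ D, (if x u = x i then tw q lab a ζ i else 0)) := by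
        rw [← Finset.sum_sub_distrib, Finset.mul_sum]
        refine Finset.sum_congr rfl fun i _ => ?_
        simp only [mul_inv_eq_one]
        split_ifs <;> ring
      rw [h8, h6, sub_self, mul_zero]
    have h8 := (Finset.sum_eq_zero_iff_of_nonneg (fun i hi => by
      split_ifs with h9
      · exact sub_nonneg.2 (hprod u hu i hi h9).2
      · exact le_rfl)).1 h7
    have hu8 := h8 u hu
    have hv8 := h8 v hv
    rw [if_pos rfl, ← mul_sub] at hu8
    rw [if_pos hxuv, ← mul_sub] at hv8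
    have hu9 := (mul_eq_zero.1 hu8).resolve_left (hne0 u hu)
    have hv9 := (mul_eq_zero.1 hv8).resolve_left (hne0 u hu)
    rcases hTuv with ⟨h9, -⟩ | ⟨-, h9⟩
    · rw [h9, sub_zero] at hu9
      exact hne0 u hu hu9
    · rw [h9, sub_zero] at hv9
      exact hne0 v hv hv9

/-- Generators at the extremal crossings are distinct modulo the radical. -/
theorem dist (M : LOG V E) (hM : M.Conn) (hcard : Fintype.card V = Fintype.card E + 1) {X : Type}
    [LinearOrder X] (ρ : M.G →* (X ≃o X)) (hρ : LocInd ρ.range) (h m : X) (z : E → ℤ) (a : V → ℤ)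
    (hz : ∀ w : E → ℤ, (∀ v, bd0 M.ini M.lab w v = 0) → ∃ c : ℤ, ∀ e, w e = c * z e)
    (ha : ∀ e, a (M.ini e) = a (M.lab e)) (D : Finset V) (hD : D ⊆ WW M.ter M.lab a z)
    (hD1 : ∀ i ∈ D, ρ (M.gen i)⁻¹ h = m)
    (hD2 : ∀ i ∈ WW M.ter M.lab a z, i ∉ D → m < ρ (M.gen i)⁻¹ h)
    (hD3 : ∀ i ∈ D, ∀ j ∈ D,
      (QuotientGroup.mk (M.gen i) : M.G ⧸ Rad M.G) = QuotientGroup.mk (M.gen j) →
      0 < tw M.ter M.lab a z i * tw M.ter M.lab a z j) (u v : V) (hu : u ∈ D) (hv : v ∈ D)
    (ζ : E → ℤ)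
    (hζ : ∀ w, bd0 M.ini M.lab ζ w = (if u = w then 1 else 0) - (if v = w then 1 else 0))
    (hT : ∀ w, tw M.ter M.lab a ζ w = 0 ∨ tw M.ter M.lab a ζ w = tw M.ter M.lab a z w)
    (hTuv : (tw M.ter M.lab a ζ u = 0 ∧ tw M.ter M.lab a ζ v = tw M.ter M.lab a z v) ∨
      (tw M.ter M.lab a ζ u = tw M.ter M.lab a z u ∧ tw M.ter M.lab a ζ v = 0)) :
    (QuotientGroup.mk (M.gen u) : M.G ⧸ Rad M.G) ≠ QuotientGroup.mk (M.gen v) := by
  classical
  intro huv
  obtain ⟨β, hβ⟩ := exists_chain M hM hcard u v huv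
  have hchi : LocInd (chi M).range :=
    locInd_of_injective locInd_int (chi M).range.subtype Subtype.val_injective
  refine dist_core (locInd_rad M.G) (fun v => (QuotientGroup.mk (M.gen v) : M.G ⧸ Rad M.G))
    (QuotientGroup.lift (Rad M.G) (chi M) (fun g hg => rad_le (chi M) hchi hg))
    (fun v => chi_gen M v) M.ini M.ter M.lab
    (QuotientGroup.lift (Rad M.G) ρ (fun g hg => rad_le ρ hρ hg)) h m z a hz ha D hD
    (fun i hi => hD1 i hi) (fun i hi hi' => hD2 i hi hi') hD3 u v hu hv ζ hζ hT hTuv huv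
    (fun e g => (β e).coeff g) ?_ (fun w g => bd_chain M u v β hβ w g)
  have h1 : (⋃ e : E, (fun g : M.G ⧸ Rad M.G => (e, g)) ''
      ((β e).coeff.support : Set (M.G ⧸ Rad M.G))).Finite :=
    Set.finite_iUnion fun e => (Finset.finite_toSet _).image _
  refine h1.subset ?_
  rintro ⟨e, g⟩ hg
  exact Set.mem_iUnion.2 ⟨e, g, Finsupp.mem_support_iff.2 hg, rfl⟩

end dist

end Pool.Agent.K9h82.UC
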