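import Pool.Agent.K9h82.UC.Mag
import Pool.Agent.TH625.LOG.Tree

/-!
# The radical of the group of a labelled oriented tree is perfect
-/

set_option autoImplicit false

namespace Pool.Agent.K9h82.UC

open Pool.Agent.TH625.LOG
open Pool.Agent.Helper777.Prof (Wr mag mag_m magnus_ker)
open Pool.Agent.Helper777.Prof.Wr (mul_v mul_m inv_v inv_m one_v one_m)
open Pool.Agent.R655.LI (cc epk epk_inj aug_comp augk augk_single)
open Pool.Agent.H40R2.Zd (fs fs_single)
open scoped commutatorElement

section tree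

variable {V E k : Type} [Fintype V] [Fintype E] [DecidableEq V] [Field k] (L : LOG V E)

theorem tree_inj (hL : L.Conn) (hcard : Fintype.card V = Fintype.card E + 1) (w : E → k)
    (hw : ∀ v, ∑ e, w e * ((if L.ini e = v then 1 else 0) - (if L.ter e = v then 1 else 0)) = 0)
    (e : E) : w e = 0 := by
  classical
  let T : (V → k) →ₗ[k] (E → k) :=
    { toFun := fun φ e => φ (L.ini e) - φ (L.ter e)
      map_add' := fun φ ψ => by
        funext e
        simp only [Pi.add_apply]
        ring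
      map_smul' := fun c φ => by
        funext e
        simp only [Pi.smul_apply, smul_eq_mul, RingHom.id_apply]
        ring }
  have hker : LinearMap.ker T ≤ Submodule.span k {(fun _ => 1 : V → k)} := by
    intro φ hφ
    have h1 : ∀ e, φ (L.ini e) = φ (L.ter e) := fun e => sub_eq_zero.1 (congrFun hφ e)
    have h2 : ∀ x y : V, φ x = φ y := by
      intro x y
      have hxy := hL x y
      induction hxy with
      | refl => rfl
      | tail _ hadj ih =>
        obtain ⟨e, ⟨h3, h4⟩ | ⟨h3, h4⟩⟩ := hadj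
        · rw [ih, ← h3, ← h4, h1]
        · rw [ih, ← h3, ← h4, h1]
    rw [Submodule.mem_span_singleton]
    by_cases hV : Nonempty V
    · obtain ⟨v0⟩ := hV
      refine ⟨φ v0, ?_⟩
      funext v
      simp only [Pi.smul_apply, smul_eq_mul, mul_one]
      exact h2 v0 v
    · refine ⟨0, ?_⟩
      funext v
      exact absurd ⟨v⟩ hV
  have h1 : Module.finrank k (LinearMap.ker T) ≤ 1 :=
    le_trans (Submodule.finrank_mono hker) (by
      have h0 := finrank_span_finset_le_card (R := k) ({(fun _ => 1 : V → k)} : Finset (V → k))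
      rw [Finset.coe_singleton, Finset.card_singleton] at h0
      exact h0)
  have h2 := LinearMap.finrank_range_add_finrank_ker T
  rw [Module.finrank_pi] at h2
  have h3 : LinearMap.range T = ⊤ := by
    apply Submodule.eq_top_of_finrank_eq
    rw [Module.finrank_pi]
    have h4 := Submodule.finrank_le (LinearMap.range T)
    rw [Module.finrank_pi] at h4
    omega
  have h4 : (Pi.single e 1 : E → k) ∈ LinearMap.range T := by
    rw [h3]; trivial
  obtain ⟨φ, hφ⟩ := h4
  have h5 : ∑ e', w e' * (φ (L.ini e') - φ (L.ter e')) = w e := by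
    have h6 : ∀ e', φ (L.ini e') - φ (L.ter e') = (Pi.single e 1 : E → k) e' :=
      fun e' => congrFun hφ e'
    simp only [h6, Pi.single_apply, mul_ite, mul_one, mul_zero, Finset.sum_ite_eq',
      Finset.mem_univ, if_true]
  have h7 : ∑ v, φ v * ∑ e', w e' * ((if L.ini e' = v then 1 else 0) -
      (if L.ter e' = v then 1 else 0)) = 0 := by
    refine Finset.sum_eq_zero fun v _ => ?_
    rw [hw v, mul_zero]
  rw [← h5, ← h7]
  simp only [Finset.mul_sum]
  rw [Finset.sum_comm]
  refine Finset.sum_congr rfl fun e' _ => ?_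
  have h8 : ∀ v, φ v * (w e' * ((if L.ini e' = v then 1 else 0) -
      (if L.ter e' = v then 1 else 0))) =
      (if L.ini e' = v then w e' * φ v else 0) - (if L.ter e' = v then w e' * φ v else 0) := by
    intro v
    split_ifs <;> ring
  simp only [h8, Finset.sum_sub_distrib, Finset.sum_ite_eq, Finset.mem_univ, if_true]
  ring

end tree

section div

variable {V E Q : Type} [Fintype V] [Fintype E] [DecidableEq V] [Group Q] (L : LOG V E)
  (π : FreeGroup V →* Q)

theorem cc_coeff (k : Type) [CommRing k] (x : MonoidAlgebra ℤ Q) (g : Q) :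
    (cc k Q x).coeff g = ((x.coeff g : ℤ) : k) := by
  classical
  induction x using MonoidAlgebra.induction_linear with
  | zero => rw [map_zero]; simp
  | add a b ha hb =>
    rw [map_add, MonoidAlgebra.coeff_add, MonoidAlgebra.coeff_add, Finsupp.add_apply,
      Finsupp.add_apply, ha, hb, Int.cast_add]
  | single h z =>
    rw [cc, MonoidAlgebra.mapRingHom_single, MonoidAlgebra.coeff_single,
      MonoidAlgebra.coeff_single, Finsupp.single_apply, Finsupp.single_apply]
    split_ifs
    · rfl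
    · exact Int.cast_zero.symm

theorem fx_aug (k : Type) [CommRing k] (e : E) (h : π (L.rel e) = 1) (v : V) :
    augk k Q (fx L π e v) = (if L.ini e = v then 1 else 0) - (if L.ter e = v then 1 else 0) := by
  have h1 : ∀ u : V, augk k Q ((Pi.single u 1 : V → MonoidAlgebra ℤ Q) v) =
      if u = v then 1 else 0 := by
    intro u
    rw [Pi.single_apply]
    by_cases h2 : v = u
    · rw [if_pos h2, if_pos h2.symm, map_one]
    · rw [if_neg h2, if_neg fun h3 => h2 h3.symm, map_zero]
  have h2 : ∀ g : Q, augk k Q (MonoidAlgebra.of ℤ Q g) = 1 := by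
    intro g
    rw [MonoidAlgebra.of_apply, augk_single, Int.cast_one]
  rw [fx_eq L π e h]
  simp only [Pi.sub_apply, Pi.add_apply, Pi.smul_apply, smul_eq_mul, map_sub, map_add, map_mul,
    h1, h2]
  ring

theorem locInd_zmod (hQ : LocInd Q) (p : ℕ) [Fact p.Prime] :
    Pool.Agent.H26R2.IdemLI.LocInd (ZMod p) (⊤ : Subgroup Q) := by
  intro H _ hfg hne
  obtain ⟨ψ, hψ⟩ := hQ H hfg hne
  refine ⟨(AddMonoidHom.toMultiplicative (Int.castRingHom (ZMod p)).toAddMonoidHom).comp ψ, ?_⟩
  intro h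
  obtain ⟨x, hx⟩ := hψ (Multiplicative.ofAdd 1)
  have h1 := DFunLike.congr_fun h x
  rw [MonoidHom.comp_apply, hx] at h1
  have h2 : ((1 : ℤ) : ZMod p) = 0 := congrArg Multiplicative.toAdd h1
  rw [Int.cast_one] at h2
  exact one_ne_zero h2

/-- injectivity modulo a prime number -/
theorem div_prime (hL : L.Conn) (hcard : Fintype.card V = Fintype.card E + 1) (hQ : LocInd Q)
    (p : ℕ) [Fact p.Prime] (hrel : ∀ e, π (L.rel e) = 1) (β : E → MonoidAlgebra ℤ Q)
    (ω : V → MonoidAlgebra ℤ Q) (h : ∑ e, β e • fx L π e = (p : ℤ) • ω) :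
    ∃ β' : E → MonoidAlgebra ℤ Q, ∀ e, β e = (p : ℤ) • β' e := by
  classical
  let A : Matrix E V (MonoidAlgebra (ZMod p) Q) := fun e v => cc (ZMod p) Q (fx L π e v)
  let r : E → MonoidAlgebra (ZMod p) Q := fun e => cc (ZMod p) Q (β e)
  have hker : (1 : Q →* Unit).ker = ⊤ := MonoidHom.ker_one
  have hr : Matrix.vecMul r A = 0 := by
    funext v
    have h1 := congrArg (cc (ZMod p) Q) (congrFun h v)
    rw [Finset.sum_apply, map_sum] at h1
    change ∑ e, r e * A e v = 0
    have h2 : cc (ZMod p) Q (((p : ℤ) • ω) v) = 0 := by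
      rw [Pi.smul_apply, map_zsmul]
      ext g
      rw [MonoidAlgebra.coeff_smul, Finsupp.smul_apply]
      simp
    rw [h2] at h1
    rw [← h1]
    refine Finset.sum_congr rfl fun e _ => ?_
    rw [Pi.smul_apply, smul_eq_mul, map_mul]
  have h0 := Pool.Agent.H26R2.IdemLI.inj_of_map (1 : Q →* Unit)
    (by rw [hker]; exact locInd_zmod hQ p) A ?_ r hr
  · have h3 : ∀ e g, (p : ℤ) ∣ (β e).coeff g := by
      intro e g
      have h4 : (cc (ZMod p) Q (β e)).coeff g = 0 := by
        have h5 : cc (ZMod p) Q (β e) = 0 := congrFun h0 e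
        rw [h5]; simp
      rw [cc_coeff] at h4
      exact (ZMod.intCast_zmod_eq_zero_iff_dvd _ _).1 h4
    refine ⟨fun e => MonoidAlgebra.ofCoeff ((β e).coeff.mapRange (fun z => z / p) (by simp)), ?_⟩
    intro e
    ext g
    rw [MonoidAlgebra.coeff_smul, Finsupp.smul_apply]
    simp only [Finsupp.mapRange_apply, smul_eq_mul]
    exact (Int.mul_ediv_cancel' (h3 e g)).symm
  · intro x hx
    have h3 : ∀ v : V, ∑ e, epk (ZMod p) (x e) * ((if L.ini e = v then 1 else 0) -
        (if L.ter e = v then 1 else 0)) = 0 := by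
      intro v
      have h4 := congrArg (epk (ZMod p)) (congrFun hx v)
      change epk (ZMod p) (∑ e, x e * fs (ZMod p) (1 : Q →* Unit) (A e v)) = epk (ZMod p) 0 at h4
      rw [map_sum, map_zero] at h4
      refine Eq.trans (Finset.sum_congr rfl fun e _ => ?_) h4
      rw [map_mul, aug_comp, fx_aug L π _ e (hrel e)]
    have h5 := tree_inj L hL hcard (fun e => epk (ZMod p) (x e)) h3
    funext e
    exact epk_inj _ _ (h5 e)

theorem mag_pow (w : FreeGroup V) (hw : π w = 1) (n : ℕ) :
    (mag π (w ^ n)).v = (n : ℤ) • (mag π w).v := by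
  induction n with
  | zero => rw [pow_zero, map_one, one_v, Nat.cast_zero, zero_smul]
  | succ n ih =>
    rw [pow_succ', ker_mul_v π hw, ih, Nat.cast_succ, add_smul, one_smul, add_comm]

theorem tors_prime (hL : L.Conn) (hcard : Fintype.card V = Fintype.card E + 1) (hQ : LocInd Q)
    (hπ : Function.Surjective π) (hrel : ∀ e, π (L.rel e) = 1) (p : ℕ) (hp : p.Prime)
    (w : FreeGroup V) (hw : π w = 1)
    (h : ∃ c ∈ ⁅π.ker, π.ker⁆, ∃ r ∈ Subgroup.normalClosure (Set.range L.rel), w ^ p = c * r) :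
    ∃ c ∈ ⁅π.ker, π.ker⁆, ∃ r ∈ Subgroup.normalClosure (Set.range L.rel), w = c * r := by
  haveI : Fact p.Prime := ⟨hp⟩
  obtain ⟨c, hc, r, hr, hcr⟩ := h
  obtain ⟨β, hβ⟩ := mag_mem L π hrel r hr
  have h1 := congrArg (fun z => (mag π z).v) hcr
  rw [mag_pow π w hw, map_mul, mag_comm_ker π c hc, one_mul, hβ] at h1
  obtain ⟨β', hβ'⟩ := div_prime L π hL hcard hQ p hrel β _ h1.symm
  obtain ⟨r', hr', h2⟩ := mem_mag L π hπ hrel β'
  have h3 : (mag π w).v = (mag π r').v := by
    rw [h2]
    have h4 : (p : ℤ) • (mag π w).v = (p : ℤ) • ∑ e, β' e • fx L π e := by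
      rw [h1, Finset.smul_sum]
      refine Finset.sum_congr rfl fun e _ => ?_
      rw [hβ', smul_assoc]
    funext v
    ext g
    have h5 := congrArg (fun z : V → MonoidAlgebra ℤ Q => (z v).coeff g) h4
    simp only [Pi.smul_apply, MonoidAlgebra.coeff_smul, Finsupp.smul_apply, smul_eq_mul] at h5
    have h6 : (p : ℤ) ≠ 0 := by exact_mod_cast hp.ne_zero
    exact mul_left_cancel₀ h6 h5
  refine ⟨w * r'⁻¹, magnus_ker π hπ _ ?_, r', hr', by group⟩
  have hr1 : π r' = 1 := ker_of L π hrel hr'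
  apply Wr.ext
  · rw [ker_mul_v π hw, mag_inv π r' hr1, h3, add_neg_cancel, one_v]
  · rw [mag_m, map_mul, map_inv, hw, hr1, one_m, inv_one, mul_one]

end div

section perf

variable {V E : Type} [Fintype V] [Fintype E] [DecidableEq V] (L : LOG V E)

/-- the projection of the free group -/
def prj (N : Subgroup L.G) [N.Normal] : FreeGroup V →* L.G ⧸ N :=
  (QuotientGroup.mk' N).comp (PresentedGroup.mk (Set.range L.rel))

theorem prj_surj (N : Subgroup L.G) [N.Normal] : Function.Surjective (prj L N) :=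
  (QuotientGroup.mk'_surjective N).comp (PresentedGroup.mk_surjective _)

theorem prj_rel (N : Subgroup L.G) [N.Normal] (e : E) : prj L N (L.rel e) = 1 := by
  have h1 : PresentedGroup.mk (Set.range L.rel) (L.rel e) = 1 :=
    PresentedGroup.one_of_mem (rels := Set.range L.rel) ⟨e, rfl⟩
  unfold prj
  rw [MonoidHom.comp_apply, h1, map_one]

theorem prj_of (N : Subgroup L.G) [N.Normal] (v : V) :
    prj L N (FreeGroup.of v) = QuotientGroup.mk (L.gen v) := rfl

theorem map_ker (N : Subgroup L.G) [N.Normal] :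
    (prj L N).ker.map (PresentedGroup.mk (Set.range L.rel)) = N := by
  ext g
  constructor
  · rintro ⟨w, hw, rfl⟩
    exact (QuotientGroup.eq_one_iff _).1 hw
  · intro hg
    obtain ⟨w, rfl⟩ := PresentedGroup.mk_surjective _ g
    exact ⟨w, (QuotientGroup.eq_one_iff _).2 hg, rfl⟩

theorem mem_comm_iff (N : Subgroup L.G) [N.Normal] (w : FreeGroup V) :
    PresentedGroup.mk (Set.range L.rel) w ∈ ⁅N, N⁆ ↔
      ∃ c ∈ ⁅(prj L N).ker, (prj L N).ker⁆,
        ∃ r ∈ Subgroup.normalClosure (Set.range L.rel), w = c * r := by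
  have h1 : ⁅(prj L N).ker, (prj L N).ker⁆.map (PresentedGroup.mk (Set.range L.rel)) = ⁅N, N⁆ := by
    rw [Subgroup.map_commutator, map_ker]
  have h2 : ∀ r, r ∈ Subgroup.normalClosure (Set.range L.rel) ↔
      PresentedGroup.mk (Set.range L.rel) r = 1 := fun r => PresentedGroup.mk_eq_one_iff.symm
  constructor
  · intro h
    rw [← h1] at h
    obtain ⟨c, hc, hcw⟩ := h
    refine ⟨c, hc, c⁻¹ * w, ?_, by group⟩
    rw [h2, map_mul, map_inv, hcw, inv_mul_cancel]
  · rintro ⟨c, hc, r, hr, rfl⟩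
    rw [map_mul, (h2 r).1 hr, mul_one, ← h1]
    exact ⟨c, hc, rfl⟩

theorem tors (hL : L.Conn) (hcard : Fintype.card V = Fintype.card E + 1) (N : Subgroup L.G)
    [N.Normal] (hQ : LocInd (L.G ⧸ N)) : ∀ (n : ℕ), 0 < n → ∀ g ∈ N, g ^ n ∈ ⁅N, N⁆ →
      g ∈ ⁅N, N⁆ := by
  intro n
  induction n using Nat.strong_induction_on with
  | _ n ih =>
    intro hn g hg h
    by_cases h1 : n = 1
    · subst h1
      rwa [pow_one] at h
    have hp := Nat.minFac_prime h1
    obtain ⟨m, hm⟩ := Nat.minFac_dvd n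
    have hm0 : 0 < m := by
      rcases Nat.eq_zero_or_pos m with h2 | h2
      · rw [h2, mul_zero] at hm; omega
      · exact h2
    have hmn : m < n := by
      have := hp.two_le
      nlinarith
    refine ih m hmn hm0 g hg ?_
    obtain ⟨w, rfl⟩ := PresentedGroup.mk_surjective _ g
    rw [← map_pow] at h ⊢
    rw [mem_comm_iff]
    refine tors_prime L (prj L N) hL hcard hQ (prj_surj L N) (prj_rel L N) _ hp (w ^ m) ?_ ?_
    · rw [map_pow]
      have h3 : prj L N w = 1 := (QuotientGroup.eq_one_iff _).2 hg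
      rw [h3, one_pow]
    · rw [← mem_comm_iff, ← pow_mul, mul_comm m, ← hm]
      exact h

/-- A normal subgroup with a locally indicable quotient: the quotient by its commutator subgroup is
locally indicable, too. -/
theorem locInd_comm (hL : L.Conn) (hcard : Fintype.card V = Fintype.card E + 1) (N : Subgroup L.G)
    [N.Normal] (hQ : LocInd (L.G ⧸ N)) : LocInd (L.G ⧸ ⁅N, N⁆) := by
  have hle : ⁅N, N⁆ ≤ N := Subgroup.commutator_le_left N N
  have hker : ∀ x : L.G ⧸ ⁅N, N⁆,
      x ∈ (QuotientGroup.map ⁅N, N⁆ N (MonoidHom.id L.G) hle).ker → ∃ g ∈ N, x = QuotientGroup.mk g := by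
    intro x hx
    obtain ⟨g, rfl⟩ := QuotientGroup.mk_surjective x
    refine ⟨g, ?_, rfl⟩
    rw [MonoidHom.mem_ker, QuotientGroup.map_mk] at hx
    exact (QuotientGroup.eq_one_iff _).1 hx
  refine hQ.ext (QuotientGroup.map ⁅N, N⁆ N (MonoidHom.id L.G) hle) ?_
  intro H hfg hne hH
  refine hom_of_abelian H hfg hne ?_ ?_
  · intro x hx y hy
    obtain ⟨g, hg, rfl⟩ := hker x (hH hx)
    obtain ⟨h, hh, rfl⟩ := hker y (hH hy)
    have h1 : ⁅g, h⁆ ∈ ⁅N, N⁆ := Subgroup.commutator_mem_commutator hg hh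
    have h2 := (QuotientGroup.eq_one_iff (N := ⁅N, N⁆) ⁅g, h⁆).2 h1
    have h3 : ⁅(QuotientGroup.mk g : L.G ⧸ ⁅N, N⁆), (QuotientGroup.mk h : L.G ⧸ ⁅N, N⁆)⁆ = 1 := h2
    exact commutatorElement_eq_one_iff_mul_comm.1 h3
  · intro x hx n hn hxn
    obtain ⟨g, hg, rfl⟩ := hker x (hH hx)
    rw [QuotientGroup.eq_one_iff]
    refine tors L hL hcard N hQ n hn g hg ?_
    rw [← QuotientGroup.eq_one_iff]
    exact hxn

/-- **The radical is perfect.** -/
theorem rad_perfect (hL : L.Conn) (hcard : Fintype.card V = Fintype.card E + 1) :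
    Rad L.G ≤ ⁅Rad L.G, Rad L.G⁆ :=
  rad_le' L.G _ (locInd_comm L hL hcard (Rad L.G) (locInd_rad L.G))

/-- Generators with the same image modulo the radical are homologous. -/
theorem exists_chain (hL : L.Conn) (hcard : Fintype.card V = Fintype.card E + 1) (u v : V)
    (huv : (QuotientGroup.mk (L.gen u) : L.G ⧸ Rad L.G) = QuotientGroup.mk (L.gen v)) :
    ∃ β : E → MonoidAlgebra ℤ (L.G ⧸ Rad L.G),
      ∑ e, β e • fx L (prj L (Rad L.G)) e = Pi.single u 1 - Pi.single v 1 := by
  have h1 : prj L (Rad L.G) (FreeGroup.of u * (FreeGroup.of v)⁻¹) = 1 := by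
    rw [map_mul, map_inv, prj_of, prj_of, huv, mul_inv_cancel]
  have h2 : PresentedGroup.mk (Set.range L.rel) (FreeGroup.of u * (FreeGroup.of v)⁻¹) ∈
      ⁅Rad L.G, Rad L.G⁆ := rad_perfect L hL hcard ((QuotientGroup.eq_one_iff _).1 h1)
  rw [mem_comm_iff] at h2
  obtain ⟨c, hc, r, hr, hcr⟩ := h2
  obtain ⟨β, hβ⟩ := mag_mem L (prj L (Rad L.G)) (prj_rel L _) r hr
  refine ⟨β, ?_⟩
  have h3 : (mag (prj L (Rad L.G)) (FreeGroup.of u * (FreeGroup.of v)⁻¹)).v =
      Pi.single u 1 - Pi.single v 1 := by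
    rw [map_mul, map_inv, mul_v, inv_v, mag_of, mag_of, mag_m, mag_m, smul_neg, ← mul_smul,
      ← map_mul, prj_of, prj_of, huv, mul_inv_cancel, map_one, one_smul, sub_eq_add_neg]
  rw [← h3, hcr, map_mul, mag_comm_ker _ c hc, one_mul, hβ]

end perf

end Pool.Agent.K9h82.UC
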