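import Pool.Agent.K9h82.UC.Red

/-!
# Labelled oriented graphs whose initial graph has exactly one cycle
-/

set_option autoImplicit false

namespace Pool.Agent.K9h82.UC

open Pool.Agent.TH625.LOG Pool.Agent.N819.LT Pool.Agent.N819.UD
open Pool.Agent.K9h82.LW (AllSub)

/-- The initial graph of `L` (vertices `V`, edges `{ini e, lab e}`) has exactly two components `A` and
`Aᶜ`, and `P 0, f 0, P 1, f 1, …, P n = P 0` is a simple cycle of it in `A`. The sign `s i` is `1` if
the edge `f i` is passed from `ini` to `lab`, and `-1` otherwise. -/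
structure Uni {V E : Type} (L : LOG V E) (A : Set V) (n : ℕ) (P : ℕ → V) (f : ℕ → E) (s : ℕ → ℤ) :
    Prop where
  pos : 0 < n
  closed : P n = P 0
  injP : ∀ i j, i < n → j < n → P i = P j → i = j
  injf : ∀ i j, i < n → j < n → f i = f j → i = j
  step : ∀ i, i < n → (s i = 1 ∧ L.ini (f i) = P i ∧ L.lab (f i) = P (i + 1)) ∨
    (s i = -1 ∧ L.lab (f i) = P i ∧ L.ini (f i) = P (i + 1))
  mem : P 0 ∈ A
  ne : A ≠ Set.univ
  comp : ∀ e, L.ini e ∈ A ↔ L.lab e ∈ A
  conn : ∀ B : Set V, (∀ e, L.ini e ∈ B ↔ L.lab e ∈ B) → B = ∅ ∨ B = A ∨ B = Aᶜ ∨ B = Set.univ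

open Classical in
/-- The crossing number of the vertex `w`: the sum of the signs `s i` over the edges `f i` of the
cycle with the label `w` whose terminal vertex does not lie in `A`. -/
noncomputable def crs {V E : Type} (L : LOG V E) (A : Set V) (n : ℕ) (f : ℕ → E) (s : ℕ → ℤ)
    (w : V) : ℤ :=
  ∑ i ∈ Finset.range n, if L.lab (f i) = w ∧ L.ter (f i) ∉ A then s i else 0

section

variable {V E : Type} {L : LOG V E} {A : Set V} {n : ℕ} {P : ℕ → V} {f : ℕ → E} {s : ℕ → ℤ}

open Classical in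
/-- the contribution of an edge of the cycle -/
noncomputable def gg (L : LOG V E) (A : Set V) (f : ℕ → E) (s : ℕ → ℤ) (w : V) (i : ℕ) : ℤ :=
  if L.lab (f i) = w ∧ L.ter (f i) ∉ A then s i else 0

theorem crs_eq (L : LOG V E) (A : Set V) (n : ℕ) (f : ℕ → E) (s : ℕ → ℤ) (w : V) :
    crs L A n f s w = ∑ i ∈ Finset.range n, gg L A f s w i := rfl

theorem Uni.memA (h : Uni L A n P f s) : ∀ i, i ≤ n → P i ∈ A := by
  intro i
  induction i with
  | zero => exact fun _ => h.mem
  | succ i ih =>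
    intro hi
    have h1 := ih (by omega)
    rcases h.step i (by omega) with ⟨-, h2, h3⟩ | ⟨-, h2, h3⟩
    · rw [← h3, ← h.comp, h2]; exact h1
    · rw [← h3, h.comp, h2]; exact h1

theorem Uni.labA (h : Uni L A n P f s) (i : ℕ) (hi : i < n) : L.lab (f i) ∈ A := by
  rcases h.step i hi with ⟨-, -, h3⟩ | ⟨-, h2, -⟩
  · rw [h3]; exact h.memA _ (by omega)
  · rw [h2]; exact h.memA _ (by omega)

theorem Uni.injS (h : Uni L A n P f s) (i j : ℕ) (hi : i < n) (hj : j < n)
    (hij : P (i + 1) = P (j + 1)) : i = j := by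
  by_cases h1 : i + 1 < n
  · by_cases h2 : j + 1 < n
    · have := h.injP _ _ h1 h2 hij
      omega
    · have h3 : j + 1 = n := by omega
      rw [h3, h.closed] at hij
      have := h.injP _ _ h1 h.pos hij
      omega
  · have h3 : i + 1 = n := by omega
    by_cases h2 : j + 1 < n
    · rw [h3, h.closed] at hij
      have := h.injP _ _ h.pos h2 hij
      omega
    · omega

theorem Uni.succ_eq (h : Uni L A n P f s) (i j : ℕ) (hi : i < n) (hj : j < n)
    (hij : P (i + 1) = P j) : i + 1 = j ∨ (i + 1 = n ∧ j = 0) := by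
  by_cases h1 : i + 1 < n
  · exact Or.inl (h.injP _ _ h1 hj hij)
  · have h3 : i + 1 = n := by omega
    rw [h3, h.closed] at hij
    exact Or.inr ⟨h3, (h.injP _ _ h.pos hj hij).symm⟩

theorem Uni.gg_cases (h : Uni L A n P f s) (w : V) (i : ℕ) (hi : i < n) :
    (gg L A f s w i = 0) ∨ (gg L A f s w i = 1 ∧ P (i + 1) = w) ∨
      (gg L A f s w i = -1 ∧ P i = w) := by
  unfold gg
  by_cases h1 : L.lab (f i) = w ∧ L.ter (f i) ∉ A
  · rw [if_pos h1]
    rcases h.step i hi with ⟨h2, -, h3⟩ | ⟨h2, h3, -⟩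
    · exact Or.inr (Or.inl ⟨h2, by rw [← h3, h1.1]⟩)
    · exact Or.inr (Or.inr ⟨h2, by rw [← h3, h1.1]⟩)
  · rw [if_neg h1]
    exact Or.inl rfl

open Classical in
theorem Uni.gsum (h : Uni L A n P f s) (w : V) (I : Finset ℕ) (hI : ∀ i ∈ I, i < n) :
    ∑ i ∈ I, gg L A f s w i = (if ∃ i ∈ I, gg L A f s w i = 1 then 1 else 0) -
      (if ∃ i ∈ I, gg L A f s w i = -1 then 1 else 0) := by
  have h1 : ∀ i ∈ I, gg L A f s w i = (if gg L A f s w i = 1 then 1 else 0) -
      (if gg L A f s w i = -1 then 1 else 0) := by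
    intro i hi
    rcases h.gg_cases w i (hI i hi) with h2 | ⟨h2, -⟩ | ⟨h2, -⟩ <;> rw [h2] <;> norm_num
  rw [Finset.sum_congr rfl h1, Finset.sum_sub_distrib]
  congr 1
  · by_cases h2 : ∃ i ∈ I, gg L A f s w i = 1
    · rw [if_pos h2]
      obtain ⟨i0, hi0, h3⟩ := h2
      rw [Finset.sum_eq_single_of_mem i0 hi0, if_pos h3]
      intro i hi hne
      refine if_neg fun h4 => hne ?_
      rcases h.gg_cases w i (hI i hi) with h5 | ⟨-, h5⟩ | ⟨h5, -⟩
      · omega
      · rcases h.gg_cases w i0 (hI i0 hi0) with h6 | ⟨-, h6⟩ | ⟨h6, -⟩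
        · omega
        · exact h.injS i i0 (hI i hi) (hI i0 hi0) (by rw [h5, h6])
        · omega
      · omega
    · rw [if_neg h2]
      push Not at h2
      exact Finset.sum_eq_zero fun i hi => if_neg (h2 i hi)
  · by_cases h2 : ∃ i ∈ I, gg L A f s w i = -1
    · rw [if_pos h2]
      obtain ⟨i0, hi0, h3⟩ := h2
      rw [Finset.sum_eq_single_of_mem i0 hi0, if_pos h3]
      intro i hi hne
      refine if_neg fun h4 => hne ?_
      rcases h.gg_cases w i (hI i hi) with h5 | ⟨h5, -⟩ | ⟨-, h5⟩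
      · omega
      · omega
      · rcases h.gg_cases w i0 (hI i0 hi0) with h6 | ⟨h6, -⟩ | ⟨-, h6⟩
        · omega
        · omega
        · exact h.injP i i0 (hI i hi) (hI i0 hi0) (by rw [h5, h6])
    · rw [if_neg h2]
      push Not at h2
      exact Finset.sum_eq_zero fun i hi => if_neg (h2 i hi)

/-- the arcs of the cycle -/
theorem Uni.arc (h : Uni L A n P f s) (r t : ℕ) (hrt : r < t) (ht : t < n)
    (hr0 : crs L A n f s (P r) ≠ 0) (ht0 : crs L A n f s (P t) ≠ 0) (w : V) :
    ∑ i ∈ Finset.Ico r t, gg L A f s w i = 0 ∨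
      ∑ i ∈ Finset.Ico r t, gg L A f s w i = crs L A n f s w := by
  classical
  have hI : ∀ i ∈ Finset.Ico r t, i < n := fun i hi => by
    have := (Finset.mem_Ico.1 hi).2
    omega
  have hN : ∀ i ∈ Finset.range n, i < n := fun i hi => Finset.mem_range.1 hi
  have hsub : ∀ c : ℤ, (∃ i ∈ Finset.Ico r t, gg L A f s w i = c) →
      ∃ i ∈ Finset.range n, gg L A f s w i = c := by
    rintro c ⟨i, hi, h1⟩
    exact ⟨i, Finset.mem_range.2 (hI i hi), h1⟩
  rw [h.gsum w _ hI, crs_eq, h.gsum w _ hN]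
  by_cases h1 : ∃ i ∈ Finset.range n, gg L A f s w i = 1
  · by_cases h2 : ∃ i ∈ Finset.range n, gg L A f s w i = -1
    · -- both exist: the crossing number is zero
      have hcr : crs L A n f s w = 0 := by
        rw [crs_eq, h.gsum w _ hN, if_pos h1, if_pos h2, sub_self]
      obtain ⟨i0, hi0, hi1⟩ := h1
      obtain ⟨j0, hj0, hj1⟩ := h2
      have hi0' := Finset.mem_range.1 hi0
      have hj0' := Finset.mem_range.1 hj0
      have hPi : P (i0 + 1) = w := by
        rcases h.gg_cases w i0 hi0' with h6 | ⟨-, h6⟩ | ⟨h6, -⟩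
        · omega
        · exact h6
        · omega
      have hPj : P j0 = w := by
        rcases h.gg_cases w j0 hj0' with h6 | ⟨h6, -⟩ | ⟨-, h6⟩
        · omega
        · omega
        · exact h6
      have hwr : w ≠ P r := fun h3 => hr0 (by rw [← h3]; exact hcr)
      have hwt : w ≠ P t := fun h3 => ht0 (by rw [← h3]; exact hcr)
      have huni1 : ∀ i, i < n → gg L A f s w i = 1 → i = i0 := by
        intro i hi h3
        rcases h.gg_cases w i hi with h6 | ⟨-, h6⟩ | ⟨h6, -⟩
        · omega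
        · exact h.injS i i0 hi hi0' (by rw [h6, hPi])
        · omega
      have huni2 : ∀ i, i < n → gg L A f s w i = -1 → i = j0 := by
        intro i hi h3
        rcases h.gg_cases w i hi with h6 | ⟨h6, -⟩ | ⟨-, h6⟩
        · omega
        · omega
        · exact h.injP i j0 hi hj0' (by rw [h6, hPj])
      have hiff : (∃ i ∈ Finset.Ico r t, gg L A f s w i = 1) ↔
          ∃ i ∈ Finset.Ico r t, gg L A f s w i = -1 := by
        have hi0r : i0 + 1 ≠ r := fun h3 => hwr (by rw [← h3, hPi])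
        have hi0t : i0 + 1 ≠ t := fun h3 => hwt (by rw [← h3, hPi])
        have hj0r : j0 ≠ r := fun h3 => hwr (by rw [← h3, hPj])
        have hj0t : j0 ≠ t := fun h3 => hwt (by rw [← h3, hPj])
        have h3 := h.succ_eq i0 j0 hi0' hj0' (by rw [hPi, hPj])
        constructor
        · rintro ⟨i, hi, h4⟩
          have h5 := huni1 i (hI i hi) h4
          subst h5
          have h6 := Finset.mem_Ico.1 hi
          refine ⟨j0, Finset.mem_Ico.2 ?_, hj1⟩
          omega
        · rintro ⟨i, hi, h4⟩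
          have h5 := huni2 i (hI i hi) h4
          subst h5
          have h6 := Finset.mem_Ico.1 hi
          refine ⟨i0, Finset.mem_Ico.2 ?_, hi1⟩
          omega
      left
      by_cases h3 : ∃ i ∈ Finset.Ico r t, gg L A f s w i = 1
      · rw [if_pos h3, if_pos (hiff.1 h3), sub_self]
      · rw [if_neg h3, if_neg fun h4 => h3 (hiff.2 h4), sub_self]
    · rw [if_pos h1, if_neg h2, if_neg fun h3 => h2 (hsub _ h3)]
      by_cases h3 : ∃ i ∈ Finset.Ico r t, gg L A f s w i = 1
      · rw [if_pos h3]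
        exact Or.inr rfl
      · rw [if_neg h3]
        exact Or.inl (sub_self _)
  · rw [if_neg h1, if_neg fun h3 => h1 (hsub _ h3)]
    by_cases h2 : ∃ i ∈ Finset.range n, gg L A f s w i = -1
    · rw [if_pos h2]
      by_cases h3 : ∃ i ∈ Finset.Ico r t, gg L A f s w i = -1
      · rw [if_pos h3]
        exact Or.inr rfl
      · rw [if_neg h3]
        exact Or.inl (sub_self _)
    · rw [if_neg h2, if_neg fun h3 => h2 (hsub _ h3)]
      exact Or.inl (sub_self _)

/-- a positive crossing number -/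
theorem Uni.posc (h : Uni L A n P f s) (w : V) (hw : 0 < crs L A n f s w) :
    ∃ i, i < n ∧ P (i + 1) = w ∧ gg L A f s w i = 1 ∧ ∀ j, j < n → gg L A f s w j ≠ -1 := by
  classical
  have hN : ∀ i ∈ Finset.range n, i < n := fun i hi => Finset.mem_range.1 hi
  rw [crs_eq, h.gsum w _ hN] at hw
  by_cases h1 : ∃ i ∈ Finset.range n, gg L A f s w i = 1
  · by_cases h2 : ∃ i ∈ Finset.range n, gg L A f s w i = -1
    · rw [if_pos h1, if_pos h2] at hw
      omega
    · obtain ⟨i, hi, h3⟩ := h1
      have hi' := Finset.mem_range.1 hi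
      refine ⟨i, hi', ?_, h3, ?_⟩
      · rcases h.gg_cases w i hi' with h6 | ⟨-, h6⟩ | ⟨h6, -⟩
        · omega
        · exact h6
        · omega
      · intro j hj h4
        exact h2 ⟨j, Finset.mem_range.2 hj, h4⟩
  · rw [if_neg h1] at hw
    split_ifs at hw <;> omega

theorem Uni.arc_left (h : Uni L A n P f s) (r t : ℕ) (hrt : r < t) (ht : t < n)
    (hr0 : 0 < crs L A n f s (P r)) : ∑ i ∈ Finset.Ico r t, gg L A f s (P r) i = 0 := by
  have hI : ∀ i ∈ Finset.Ico r t, i < n := fun i hi => by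
    have := (Finset.mem_Ico.1 hi).2
    omega
  obtain ⟨i0, hi0, h1, -, h2⟩ := h.posc (P r) hr0
  refine Finset.sum_eq_zero fun i hi => ?_
  have h5 := Finset.mem_Ico.1 hi
  rcases h.gg_cases (P r) i (hI i hi) with h6 | ⟨-, h6⟩ | ⟨h6, -⟩
  · exact h6
  · have h7 := h.succ_eq i r (hI i hi) (by omega) h6
    omega
  · exact absurd h6 (h2 i (hI i hi))

theorem Uni.arc_right (h : Uni L A n P f s) (r t : ℕ) (hrt : r < t) (ht : t < n)
    (ht0 : 0 < crs L A n f s (P t)) :
    ∑ i ∈ Finset.Ico r t, gg L A f s (P t) i = crs L A n f s (P t) := by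
  rw [crs_eq]
  refine Finset.sum_subset (fun i hi => Finset.mem_range.2 (by
    have := (Finset.mem_Ico.1 hi).2
    omega)) fun i hi hi' => ?_
  have hin := Finset.mem_range.1 hi
  obtain ⟨i0, hi0, h1, -, h2⟩ := h.posc (P t) ht0
  rcases h.gg_cases (P t) i hin with h6 | ⟨-, h6⟩ | ⟨h6, -⟩
  · exact h6
  · have h7 := h.succ_eq i t hin ht h6
    have h8 : i ∈ Finset.Ico r t := Finset.mem_Ico.2 (by omega)
    exact absurd h8 hi'
  · exact absurd h6 (h2 i hin)

/-- a negative crossing number -/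
theorem Uni.negc (h : Uni L A n P f s) (w : V) (hw : crs L A n f s w < 0) :
    ∀ j, j < n → gg L A f s w j ≠ 1 := by
  classical
  have hN : ∀ i ∈ Finset.range n, i < n := fun i hi => Finset.mem_range.1 hi
  rw [crs_eq, h.gsum w _ hN] at hw
  intro j hj h4
  rw [if_pos ⟨j, Finset.mem_range.2 hj, h4⟩] at hw
  split_ifs at hw <;> omega

theorem Uni.neg_left (h : Uni L A n P f s) (r t : ℕ) (hrt : r < t) (ht : t < n)
    (hr0 : crs L A n f s (P r) < 0) :
    ∑ i ∈ Finset.Ico r t, gg L A f s (P r) i = crs L A n f s (P r) := by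
  rw [crs_eq]
  refine Finset.sum_subset (fun i hi => Finset.mem_range.2 (by
    have := (Finset.mem_Ico.1 hi).2
    omega)) fun i hi hi' => ?_
  have hin := Finset.mem_range.1 hi
  rcases h.gg_cases (P r) i hin with h6 | ⟨h6, -⟩ | ⟨-, h6⟩
  · exact h6
  · exact absurd h6 (h.negc _ hr0 i hin)
  · have h7 := h.injP i r hin (by omega) h6
    have h8 : i ∈ Finset.Ico r t := Finset.mem_Ico.2 (by omega)
    exact absurd h8 hi'

theorem Uni.neg_right (h : Uni L A n P f s) (r t : ℕ) (ht : t < n)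
    (ht0 : crs L A n f s (P t) < 0) : ∑ i ∈ Finset.Ico r t, gg L A f s (P t) i = 0 := by
  refine Finset.sum_eq_zero fun i hi => ?_
  have h5 := Finset.mem_Ico.1 hi
  have hin : i < n := by omega
  rcases h.gg_cases (P t) i hin with h6 | ⟨h6, -⟩ | ⟨-, h6⟩
  · exact h6
  · exact absurd h6 (h.negc _ ht0 i hin)
  · have h7 := h.injP i t hin ht h6
    omega

theorem Uni.onP (h : Uni L A n P f s) (w : V) (hw : crs L A n f s w ≠ 0) :
    ∃ i, i < n ∧ w = P i := by
  have h1 : ∃ i ∈ Finset.range n, gg L A f s w i ≠ 0 := by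
    by_contra hcon
    push Not at hcon
    exact hw (Finset.sum_eq_zero hcon)
  obtain ⟨i, hi, h2⟩ := h1
  have hin := Finset.mem_range.1 hi
  rcases h.gg_cases w i hin with h6 | ⟨-, h6⟩ | ⟨-, h6⟩
  · exact absurd h6 h2
  · by_cases h7 : i + 1 < n
    · exact ⟨i + 1, h7, h6.symm⟩
    · have h8 : i + 1 = n := by omega
      rw [h8, h.closed] at h6
      exact ⟨0, h.pos, h6.symm⟩
  · exact ⟨i, hin, h6.symm⟩

/-- the chain of a set of indices -/
def ch [DecidableEq E] (f : ℕ → E) (s : ℕ → ℤ) (I : Finset ℕ) (e : E) : ℤ :=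
  ∑ i ∈ I, if f i = e then s i else 0

open Classical in
/-- the characteristic function of `A` -/
noncomputable def chA (A : Set V) (v : V) : ℤ := if v ∈ A then 1 else 0

variable [Fintype E] [DecidableEq V] [DecidableEq E]

theorem Uni.tw_ch (h : Uni L A n P f s) (I : Finset ℕ) (hI : ∀ i ∈ I, i < n) (w : V) :
    tw L.ter L.lab (chA A) (ch f s I) w = ∑ i ∈ I, gg L A f s w i := by
  classical
  unfold tw ch
  have h1 : ∀ e, (if L.lab e = w then (∑ i ∈ I, if f i = e then s i else 0) *
      (chA A (L.lab e) - chA A (L.ter e)) else 0) =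
      ∑ i ∈ I, if f i = e then (if L.lab e = w then s i *
        (chA A (L.lab e) - chA A (L.ter e)) else 0) else 0 := by
    intro e
    by_cases h2 : L.lab e = w
    · simp only [h2, if_true, Finset.sum_mul, ite_mul, zero_mul]
    · simp only [h2, if_false, ite_self, Finset.sum_const_zero]
  simp only [h1]
  rw [Finset.sum_comm]
  refine Finset.sum_congr rfl fun i hi => ?_
  rw [Finset.sum_ite_eq, if_pos (Finset.mem_univ _)]
  unfold gg chA
  rw [if_pos (h.labA i (hI i hi))]
  by_cases h2 : L.lab (f i) = w <;> by_cases h3 : L.ter (f i) ∈ A <;> simp [h2, h3]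

theorem Uni.bd0_ch (h : Uni L A n P f s) (I : Finset ℕ) (hI : ∀ i ∈ I, i < n) (v : V) :
    bd0 L.ini L.lab (ch f s I) v =
      ∑ i ∈ I, ((if P i = v then 1 else 0) - (if P (i + 1) = v then 1 else 0)) := by
  unfold bd0 ch
  simp only [Finset.sum_mul, ite_mul, zero_mul]
  rw [Finset.sum_comm]
  refine Finset.sum_congr rfl fun i hi => ?_
  rw [Finset.sum_ite_eq, if_pos (Finset.mem_univ _)]
  rcases h.step i (hI i hi) with ⟨h1, h2, h3⟩ | ⟨h1, h2, h3⟩
  · rw [h1, h2, h3]
    ring
  · rw [h1, h2, h3]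
    ring

theorem tel (F : ℕ → ℤ) (r t : ℕ) (hrt : r ≤ t) :
    ∑ i ∈ Finset.Ico r t, (F i - F (i + 1)) = F r - F t := by
  induction t, hrt using Nat.le_induction with
  | base => simp
  | succ t ht ih =>
    rw [Finset.sum_Ico_succ_top ht, ih]
    ring

theorem Uni.bd0_arc (h : Uni L A n P f s) (r t : ℕ) (hrt : r ≤ t) (ht : t ≤ n) (v : V) :
    bd0 L.ini L.lab (ch f s (Finset.Ico r t)) v =
      (if P r = v then 1 else 0) - (if P t = v then 1 else 0) := by
  rw [h.bd0_ch _ (fun i hi => by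
    have := (Finset.mem_Ico.1 hi).2
    omega), tel (fun i => if P i = v then 1 else 0) r t hrt]

theorem Uni.bd0_z (h : Uni L A n P f s) (v : V) :
    bd0 L.ini L.lab (ch f s (Finset.range n)) v = 0 := by
  have h1 := h.bd0_arc 0 n (Nat.zero_le _) le_rfl v
  rw [← Finset.range_eq_Ico] at h1
  rw [h1, h.closed, sub_self]

theorem Uni.ch_f (h : Uni L A n P f s) : ch f s (Finset.range n) (f 0) = s 0 := by
  unfold ch
  rw [Finset.sum_eq_single_of_mem 0 (Finset.mem_range.2 h.pos), if_pos rfl]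
  intro i hi hne
  exact if_neg fun h1 => hne (h.injf i 0 (Finset.mem_range.1 hi) h.pos h1)

theorem Uni.arcs (h : Uni L A n P f s) (u v : V) (huv : u ≠ v)
    (hs : 0 < crs L A n f s u * crs L A n f s v) : ∃ ζ : E → ℤ,
      (∀ w, bd0 L.ini L.lab ζ w = (if u = w then 1 else 0) - (if v = w then 1 else 0)) ∧
      (∀ w, tw L.ter L.lab (chA A) ζ w = 0 ∨
        tw L.ter L.lab (chA A) ζ w = tw L.ter L.lab (chA A) (ch f s (Finset.range n)) w) ∧
      ((tw L.ter L.lab (chA A) ζ u = 0 ∧
        tw L.ter L.lab (chA A) ζ v = tw L.ter L.lab (chA A) (ch f s (Finset.range n)) v) ∨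
      (tw L.ter L.lab (chA A) ζ u = tw L.ter L.lab (chA A) (ch f s (Finset.range n)) u ∧
        tw L.ter L.lab (chA A) ζ v = 0)) := by
  have hu0 : crs L A n f s u ≠ 0 := fun h0 => by rw [h0, zero_mul] at hs; exact lt_irrefl _ hs
  have hv0 : crs L A n f s v ≠ 0 := fun h0 => by rw [h0, mul_zero] at hs; exact lt_irrefl _ hs
  obtain ⟨r, hr, rfl⟩ := h.onP u hu0
  obtain ⟨t, ht, rfl⟩ := h.onP v hv0
  have hN : ∀ i ∈ Finset.range n, i < n := fun i hi => Finset.mem_range.1 hi
  have hIco : ∀ a b, b < n → ∀ i ∈ Finset.Ico a b, i < n := fun a b hb i hi => by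
    have := (Finset.mem_Ico.1 hi).2
    omega
  have hz : ∀ w, tw L.ter L.lab (chA A) (ch f s (Finset.range n)) w = crs L A n f s w :=
    fun w => h.tw_ch _ hN w
  -- the values at the ends of an arc
  have hends : ∀ a b, a < b → b < n → 0 < crs L A n f s (P a) * crs L A n f s (P b) →
      (∑ i ∈ Finset.Ico a b, gg L A f s (P a) i = 0 ∧
        ∑ i ∈ Finset.Ico a b, gg L A f s (P b) i = crs L A n f s (P b)) ∨
      (∑ i ∈ Finset.Ico a b, gg L A f s (P a) i = crs L A n f s (P a) ∧
        ∑ i ∈ Finset.Ico a b, gg L A f s (P b) i = 0) := by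
    intro a b hab hb hpos
    rcases pos_and_pos_or_neg_and_neg_of_mul_pos hpos with ⟨h1, h2⟩ | ⟨h1, h2⟩
    · exact Or.inl ⟨h.arc_left a b hab hb h1, h.arc_right a b hab hb h2⟩
    · exact Or.inr ⟨h.neg_left a b hab hb h1, h.neg_right a b hb h2⟩
  rcases Nat.lt_trichotomy r t with hrt | hrt | hrt
  · refine ⟨ch f s (Finset.Ico r t), h.bd0_arc r t (le_of_lt hrt) (le_of_lt ht), ?_, ?_⟩
    · intro w
      rw [hz, h.tw_ch _ (hIco r t ht)]
      exact h.arc r t hrt ht hu0 hv0 w
    · rw [hz, hz, h.tw_ch _ (hIco r t ht), h.tw_ch _ (hIco r t ht)]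
      exact hends r t hrt ht hs
  · exact absurd (by rw [hrt]) huv
  · have hsub : ∀ w, tw L.ter L.lab (chA A)
        (fun e => ch f s (Finset.range n) e - ch f s (Finset.Ico t r) e) w =
        crs L A n f s w - ∑ i ∈ Finset.Ico t r, gg L A f s w i := by
      intro w
      rw [← hz, ← h.tw_ch _ (hIco t r hr)]
      unfold tw
      rw [← Finset.sum_sub_distrib]
      refine Finset.sum_congr rfl fun e _ => ?_
      split_ifs
      · ring
      · ring
    refine ⟨fun e => ch f s (Finset.range n) e - ch f s (Finset.Ico t r) e, ?_, ?_, ?_⟩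
    · intro w
      rw [bd0_sub, h.bd0_z, h.bd0_arc t r (le_of_lt hrt) (le_of_lt hr)]
      ring
    · intro w
      rw [hsub, hz]
      rcases h.arc t r hrt hr hv0 hu0 w with h1 | h1
      · rw [h1]
        right
        ring
      · rw [h1]
        left
        ring
    · rw [hsub, hsub, hz, hz]
      rcases hends t r hrt hr (by rw [mul_comm]; exact hs) with ⟨h1, h2⟩ | ⟨h1, h2⟩
      · rw [h1, h2, sub_self, sub_zero]
        exact Or.inl ⟨rfl, rfl⟩
      · rw [h1, h2, sub_self, sub_zero]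
        exact Or.inr ⟨rfl, rfl⟩

variable [Fintype V]

theorem Uni.const (h : Uni L A n P f s) (φ : V → ℚ)
    (hφ : ∀ e, e ≠ f 0 → φ (L.ini e) = φ (L.lab e)) (e : E) : φ (L.ini e) = φ (L.lab e) := by
  by_cases he : e = f 0
  · have h1 : ∀ i, 1 ≤ i → i ≤ n → φ (P i) = φ (P 1) := by
      intro i hi
      induction i, hi using Nat.le_induction with
      | base => exact fun _ => rfl
      | succ i hi ih =>
        intro hin
        have h2 : f i ≠ f 0 := fun h3 => by
          have := h.injf i 0 (by omega) h.pos h3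
          omega
        have h3 := hφ (f i) h2
        rw [← ih (by omega)]
        rcases h.step i (by omega) with ⟨-, h4, h5⟩ | ⟨-, h4, h5⟩
        · rw [h4, h5] at h3
          exact h3.symm
        · rw [h4, h5] at h3
          exact h3
    have h2 : φ (P 0) = φ (P 1) := by
      rw [← h.closed]
      exact h1 n h.pos le_rfl
    rw [he]
    rcases h.step 0 h.pos with ⟨-, h4, h5⟩ | ⟨-, h4, h5⟩
    · rw [h4, h5, h2]
    · rw [h4, h5, h2]
  · exact hφ e he

theorem Uni.span (h : Uni L A n P f s) (hcard : Fintype.card V = Fintype.card E + 1)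
    (w : E → ℤ) (hw : ∀ v, bd0 L.ini L.lab w v = 0) :
    ∃ c : ℤ, ∀ e, w e = c * ch f s (Finset.range n) e := by
  classical
  have hs0 : s 0 * s 0 = 1 := by
    rcases h.step 0 h.pos with ⟨h1, -, -⟩ | ⟨h1, -, -⟩ <;> rw [h1] <;> rfl
  let c : ℤ := s 0 * w (f 0)
  refine ⟨c, ?_⟩
  let w' : E → ℤ := fun e => w e - c * ch f s (Finset.range n) e
  have hw' : ∀ v, bd0 L.ini L.lab w' v = 0 := by
    intro v
    change bd0 L.ini L.lab (fun e => w e - c * ch f s (Finset.range n) e) v = 0
    rw [bd0_sub, bd0_mul, h.bd0_z, hw]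
    ring
  have hw0 : w' (f 0) = 0 := by
    change w (f 0) - s 0 * w (f 0) * ch f s (Finset.range n) (f 0) = 0
    rw [h.ch_f]
    have : s 0 * w (f 0) * s 0 = (s 0 * s 0) * w (f 0) := by ring
    rw [this, hs0]
    ring
  suffices hz : ∀ e, w' e = 0 by
    intro e
    have h1 : w e - c * ch f s (Finset.range n) e = 0 := hz e
    omega
  intro e
  by_cases he : e = f 0
  · rw [he, hw0]
  -- the remaining edges
  let E' := {e : E // e ≠ f 0}
  let T : (V → ℚ) →ₗ[ℚ] (E' → ℚ) :=
    { toFun := fun φ e => φ (L.ini e.1) - φ (L.lab e.1)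
      map_add' := fun φ ψ => by
        funext e
        simp only [Pi.add_apply]
        ring
      map_smul' := fun c φ => by
        funext e
        simp only [Pi.smul_apply, smul_eq_mul, RingHom.id_apply]
        ring }
  obtain ⟨b0, hb0⟩ := (Set.ne_univ_iff_exists_notMem A).1 h.ne
  have hker : LinearMap.ker T ≤ Submodule.span ℚ
      (({(fun v => if v ∈ A then 1 else 0 : V → ℚ), (fun v => if v ∈ A then 0 else 1 : V → ℚ)} :
        Finset (V → ℚ)) : Set (V → ℚ)) := by
    intro φ hφ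
    have h1 : ∀ e, φ (L.ini e) = φ (L.lab e) := by
      refine h.const φ fun e he => ?_
      exact sub_eq_zero.1 (congrFun hφ (⟨e, he⟩ : E'))
    have h2 : ∀ v0 : V, ({v | φ v = φ v0} : Set V) = ∅ ∨ {v | φ v = φ v0} = A ∨
        {v | φ v = φ v0} = Aᶜ ∨ {v | φ v = φ v0} = Set.univ := by
      intro v0
      refine h.conn _ fun e => ?_
      change φ (L.ini e) = φ v0 ↔ φ (L.lab e) = φ v0
      rw [h1]
    have h3 : ∀ v ∈ A, φ v = φ (P 0) := by
      intro v hv
      have hP : P 0 ∈ ({v | φ v = φ (P 0)} : Set V) := rfl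
      rcases h2 (P 0) with h4 | h4 | h4 | h4
      · rw [h4] at hP
        exact absurd hP (Set.notMem_empty _)
      · have h5 : v ∈ ({v | φ v = φ (P 0)} : Set V) := by rw [h4]; exact hv
        exact h5
      · rw [h4] at hP
        exact absurd h.mem hP
      · have h5 : v ∈ ({v | φ v = φ (P 0)} : Set V) := by rw [h4]; trivial
        exact h5
    have h4 : ∀ v, v ∉ A → φ v = φ b0 := by
      intro v hv
      have hP : b0 ∈ ({v | φ v = φ b0} : Set V) := rfl
      rcases h2 b0 with h4 | h4 | h4 | h4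
      · rw [h4] at hP
        exact absurd hP (Set.notMem_empty _)
      · rw [h4] at hP
        exact absurd hP hb0
      · have h5 : v ∈ ({v | φ v = φ b0} : Set V) := by rw [h4]; exact hv
        exact h5
      · have h5 : v ∈ ({v | φ v = φ b0} : Set V) := by rw [h4]; trivial
        exact h5
    have h5 : φ = φ (P 0) • (fun v => if v ∈ A then 1 else 0 : V → ℚ) +
        φ b0 • (fun v => if v ∈ A then 0 else 1 : V → ℚ) := by
      funext v
      simp only [Pi.add_apply, Pi.smul_apply, smul_eq_mul]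
      by_cases hv : v ∈ A
      · rw [if_pos hv, if_pos hv, h3 v hv]
        ring
      · rw [if_neg hv, if_neg hv, h4 v hv]
        ring
    rw [h5]
    refine Submodule.add_mem _ (Submodule.smul_mem _ _ (Submodule.subset_span ?_))
      (Submodule.smul_mem _ _ (Submodule.subset_span ?_))
    · rw [Finset.coe_insert, Finset.coe_singleton]
      exact Or.inl rfl
    · rw [Finset.coe_insert, Finset.coe_singleton]
      exact Or.inr rfl
  have h1 : Module.finrank ℚ (LinearMap.ker T) ≤ 2 :=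
    le_trans (Submodule.finrank_mono hker)
      (le_trans (finrank_span_finset_le_card _) Finset.card_le_two)
  have hE' : Fintype.card E' = Fintype.card E - 1 := by
    have := Fintype.card_subtype_compl (fun e : E => e = f 0)
    rw [Fintype.card_subtype_eq] at this
    exact this
  have hEpos : 0 < Fintype.card E := Fintype.card_pos_iff.2 ⟨f 0⟩
  have h2 := LinearMap.finrank_range_add_finrank_ker T
  rw [Module.finrank_pi] at h2
  have h3 : LinearMap.range T = ⊤ := by
    apply Submodule.eq_top_of_finrank_eq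
    rw [Module.finrank_pi]
    have h4 := Submodule.finrank_le (LinearMap.range T)
    rw [Module.finrank_pi] at h4
    omega
  have h4 : (Pi.single (⟨e, he⟩ : E') 1 : E' → ℚ) ∈ LinearMap.range T := by
    rw [h3]; trivial
  obtain ⟨φ, hφ⟩ := h4
  have hφe : ∀ e' : E, e' ≠ f 0 → φ (L.ini e') - φ (L.lab e') = if e' = e then 1 else 0 := by
    intro e' he'
    have h5 := congrFun hφ (⟨e', he'⟩ : E')
    change φ (L.ini e') - φ (L.lab e') = _ at h5
    rw [h5, Pi.single_apply]
    by_cases h6 : e' = e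
    · rw [if_pos h6, if_pos (Subtype.ext h6)]
    · rw [if_neg h6, if_neg fun h7 => h6 (congrArg Subtype.val h7)]
  have h5 : ∑ e', (w' e' : ℚ) * (φ (L.ini e') - φ (L.lab e')) = w' e := by
    rw [Finset.sum_eq_single e]
    · rw [hφe e he, if_pos rfl, mul_one]
    · intro e' _ hne
      by_cases he' : e' = f 0
      · rw [he', hw0, Int.cast_zero, zero_mul]
      · rw [hφe e' he', if_neg hne, mul_zero]
    · intro h6; exact absurd (Finset.mem_univ _) h6
  have h7 : ∑ v, φ v * (bd0 L.ini L.lab w' v : ℚ) = 0 := by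
    refine Finset.sum_eq_zero fun v _ => ?_
    rw [hw' v, Int.cast_zero, mul_zero]
  have h8 : ∑ v, φ v * (bd0 L.ini L.lab w' v : ℚ) =
      ∑ e', (w' e' : ℚ) * (φ (L.ini e') - φ (L.lab e')) := by
    unfold bd0
    simp only [Int.cast_sum, Finset.mul_sum]
    rw [Finset.sum_comm]
    refine Finset.sum_congr rfl fun e' _ => ?_
    have h9 : ∀ v, φ v * ((w' e' * ((if L.ini e' = v then 1 else 0) -
        (if L.lab e' = v then 1 else 0)) : ℤ) : ℚ) =
        (if L.ini e' = v then (w' e' : ℚ) * φ v else 0) -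
        (if L.lab e' = v then (w' e' : ℚ) * φ v else 0) := by
      intro v
      push_cast
      split_ifs <;> ring
    simp only [h9, Finset.sum_sub_distrib, Finset.sum_ite_eq, Finset.mem_univ, if_true]
    ring
  rw [h8, h5] at h7
  exact_mod_cast h7

end

end Pool.Agent.K9h82.UC
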