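import Pool.Agent.K9h82.UC.Cyc

/-!
# Unicyclic initial graphs: assembly
-/

set_option autoImplicit false

namespace Pool.Agent.K9h82.UC

open Pool.Agent.TH625.LOG Pool.Agent.N819.LT Pool.Agent.N819.UD
open Pool.Agent.K9h82.LW (AllSub subHom subHom_gen)

/-- The vertex `w` has a nonzero crossing number and the smallest position `(x_w)⁻¹ h` among
such vertices. -/
def Extremal {V E : Type} (M : LOG V E) (A : Set V) (n : ℕ) (f : ℕ → E) (s : ℕ → ℤ) {X : Type}
    [LinearOrder X] (ρ : M.G →* (X ≃o X)) (h : X) (w : V) : Prop :=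
  crs M A n f s w ≠ 0 ∧ ∀ w', crs M A n f s w' ≠ 0 → ρ (M.gen w)⁻¹ h ≤ ρ (M.gen w')⁻¹ h

/-- Some homomorphism of the group of `M` to a locally indicable group separates `x_u` and `x_v`. -/
def Sep {V E : Type} (M : LOG V E) (u v : V) : Prop :=
  ∃ (B : Type) (_ : Group B) (φ : M.G →* B), LocInd B ∧ φ (M.gen u) ≠ φ (M.gen v)

/-- The initial graph of `M` has exactly one cycle, not all crossing numbers vanish, and there is an
order preserving action of the group with a locally indicable image on a linearly ordered set such that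
extremal vertices with crossing numbers of different signs are separated. -/
def OneSided {V E : Type} (M : LOG V E) : Prop :=
  ∃ (A : Set V) (n : ℕ) (P : ℕ → V) (f : ℕ → E) (s : ℕ → ℤ), Uni M A n P f s ∧
    (∃ w, crs M A n f s w ≠ 0) ∧
    ∃ (X : Type) (_ : LinearOrder X) (ρ : M.G →* (X ≃o X)) (h : X), LocInd ρ.range ∧
      ∀ u v, Extremal M A n f s ρ h u → Extremal M A n f s ρ h v → 0 < crs M A n f s u →
        crs M A n f s v < 0 → Sep M u v

theorem Sep.ne {V E : Type} {M : LOG V E} {u v : V} (h : Sep M u v) :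
    (QuotientGroup.mk (M.gen u) : M.G ⧸ Rad M.G) ≠ QuotientGroup.mk (M.gen v) := by
  obtain ⟨B, _, φ, hB, hne⟩ := h
  intro h1
  have h2 := QuotientGroup.eq.1 h1
  have h3 := rad_le φ (locInd_of_injective hB φ.range.subtype Subtype.val_injective) h2
  rw [MonoidHom.mem_ker, map_mul, map_inv, inv_mul_eq_one] at h3
  exact hne h3

variable {V E : Type} [Fintype V] [Fintype E] [DecidableEq V] [DecidableEq E]

theorem chA_comp {M : LOG V E} {A : Set V} {n : ℕ} {P : ℕ → V} {f : ℕ → E} {s : ℕ → ℤ}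
    (hu : Uni M A n P f s) (e : E) : chA A (M.ini e) = chA A (M.lab e) := by
  classical
  unfold chA
  by_cases h : M.ini e ∈ A
  · rw [if_pos h, if_pos ((hu.comp e).1 h)]
  · rw [if_neg h, if_neg fun h1 => h ((hu.comp e).2 h1)]

theorem core_one (M : LOG V E) (hM : M.Conn) (hcard : Fintype.card V = Fintype.card E + 1)
    (h1 : OneSided M) {G' : Type} [Group G'] (x : V → G') (g' : G' →* M.G)
    (hf : ∀ v, g' (x v) = M.gen v)
    (y : E → G' → ℤ) (hfin : {z : E × G' | y z.1 z.2 ≠ 0}.Finite)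
    (hy : ∀ v g, bdZ x M.ini M.ter M.lab y v g = 0) (e : E) (g : G') : y e g = 0 := by
  classical
  obtain ⟨A, n, P, f, s, hu, ⟨w0, hw0⟩, X, _, ρ, h, hρ, hpos⟩ := h1
  have hN : ∀ i ∈ Finset.range n, i < n := fun i hi => Finset.mem_range.1 hi
  have hz : ∀ w, tw M.ter M.lab (chA A) (ch f s (Finset.range n)) w = crs M A n f s w :=
    fun w => hu.tw_ch _ hN w
  have hWW : ∀ w, w ∈ WW M.ter M.lab (chA A) (ch f s (Finset.range n)) ↔
      crs M A n f s w ≠ 0 := by
    intro w
    rw [mem_WW, hz]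
  obtain ⟨w1, hw1, hmin⟩ := Finset.exists_min_image
    (WW M.ter M.lab (chA A) (ch f s (Finset.range n))) (fun w => ρ (M.gen w)⁻¹ h)
    ⟨w0, (hWW w0).2 hw0⟩
  let D : Finset V := (WW M.ter M.lab (chA A) (ch f s (Finset.range n))).filter
    fun w => ρ (M.gen w)⁻¹ h = ρ (M.gen w1)⁻¹ h
  have hDW : D ⊆ WW M.ter M.lab (chA A) (ch f s (Finset.range n)) := Finset.filter_subset _ _
  have hD1 : ∀ i ∈ D, ρ (M.gen i)⁻¹ h = ρ (M.gen w1)⁻¹ h := fun i hi => (Finset.mem_filter.1 hi).2
  have hext : ∀ i ∈ D, Extremal M A n f s ρ h i := by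
    intro i hi
    refine ⟨(hWW i).1 (hDW hi), fun w' hw' => ?_⟩
    rw [hD1 i hi]
    exact hmin w' ((hWW w').2 hw')
  have hD3 : ∀ i ∈ D, ∀ j ∈ D,
      (QuotientGroup.mk (M.gen i) : M.G ⧸ Rad M.G) = QuotientGroup.mk (M.gen j) →
      0 < crs M A n f s i * crs M A n f s j := by
    intro i hi j hj hij
    have h2 := (hext i hi).1
    have h3 := (hext j hj).1
    rcases lt_or_gt_of_ne h2 with h4 | h4
    · rcases lt_or_gt_of_ne h3 with h5 | h5
      · exact mul_pos_of_neg_of_neg h4 h5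
      · exact absurd hij.symm (hpos j i (hext j hj) (hext i hi) h5 h4).ne
    · rcases lt_or_gt_of_ne h3 with h5 | h5
      · exact absurd hij (hpos i j (hext i hi) (hext j hj) h4 h5).ne
      · exact mul_pos h4 h5
  refine core_uni M hM hcard ρ hρ h (ρ (M.gen w1)⁻¹ h) (ch f s (Finset.range n)) (chA A)
    (fun w hw => hu.span hcard w hw) (chA_comp hu) D ⟨w1, Finset.mem_filter.2 ⟨hw1, rfl⟩⟩ hDW hD1
    ?_ (fun i hi j hj hij => by rw [hz, hz]; exact hD3 i hi j hj hij) ?_ x g' hf y hfin hy e g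
  · intro i hi hi'
    exact lt_of_le_of_ne (hmin i hi) fun h2 => hi' (Finset.mem_filter.2 ⟨hi, h2.symm⟩)
  · intro u hu' v hv' huv hs
    rw [hz, hz] at hs
    exact hu.arcs u v huv hs

/-- **Unicyclic initial or terminal graphs.** -/
theorem main (L : LOG V E) (hL : L.Conn) (hcard : Fintype.card V = Fintype.card E + 1)
    (h : OneSided L ∨ OneSided (revL L)) : AllSub L := by
  rcases h with h | h
  · intro S' c hc
    refine sub_ini L S' ?_ c hc
    intro y hfin hy e g
    exact core_one L hL hcard h (sub L S').gen (subHom L S') (subHom_gen L S') y hfin hy e g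
  · intro S' c hc
    refine sub_ter L S' ?_ c hc
    intro y hfin hy e g
    refine core_one (revL L) (rev_conn L hL) hcard h (fun v => ((sub L S').gen v)⁻¹) (revHom L S')
      (fun v => ?_) y hfin hy e g
    rw [map_inv, revHom_gen, inv_inv]

end Pool.Agent.K9h82.UC
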