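import Pool.Agent.TH625.LOG.LI

/-!
# Locally indicable groups: abelian extensions, the largest locally indicable quotient
-/

set_option autoImplicit false

namespace Pool.Agent.K9h82.UC

open Pool.Agent.TH625.LOG

/-- A nontrivial finitely generated abelian group without torsion maps nontrivially to the
integers. -/
theorem hom_of_abelian {G : Type} [Group G] (H : Subgroup G) (hfg : H.FG) (hne : H ≠ ⊥)
    (hcomm : ∀ x ∈ H, ∀ y ∈ H, x * y = y * x)
    (htf : ∀ x ∈ H, ∀ n : ℕ, 0 < n → x ^ n = 1 → x = 1) :
    ∃ ψ : H →* Multiplicative ℤ, ∃ x, ψ x ≠ 1 := by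
  letI : CommGroup H :=
    { (inferInstance : Group H) with
      mul_comm := fun x y => Subtype.ext (hcomm x x.2 y y.2) }
  have h1 : Group.FG H := (Group.fg_iff_subgroup_fg H).2 hfg
  have h2 : Module.Finite ℤ (Additive H) := Module.Finite.iff_addGroup_fg.2 inferInstance
  have h3 : Module.IsTorsionFree ℤ (Additive H) := by
    rw [Module.isTorsionFree_iff_smul_eq_zero]
    intro r x hx
    by_cases hr : r = 0
    · exact Or.inl hr
    · right
      have h4 : x.toMul ^ r = 1 := congrArg Additive.toMul hx
      have h5 : (x.toMul : G) ^ r = 1 := by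
        have := congrArg Subtype.val h4
        rwa [Subgroup.coe_zpow] at this
      have h6 : (x.toMul : G) ^ r.natAbs = 1 := by
        rcases Int.natAbs_eq r with h7 | h7
        · rw [h7, zpow_natCast] at h5; exact h5
        · rw [h7, zpow_neg, zpow_natCast] at h5
          exact inv_eq_one.1 h5
      have h7 := htf _ x.toMul.2 _ (Int.natAbs_pos.2 hr) h6
      apply Additive.toMul.injective
      exact Subtype.ext h7
  have h4 : Module.Free ℤ (Additive H) := Module.free_of_finite_type_torsion_free'
  have h5 : ∃ x : H, x ≠ 1 := by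
    by_contra hcon
    push Not at hcon
    apply hne
    rw [Subgroup.eq_bot_iff_forall]
    intro x hx
    exact congrArg Subtype.val (hcon ⟨x, hx⟩)
  obtain ⟨x, hx⟩ := h5
  let b := Module.Free.chooseBasis ℤ (Additive H)
  have h6 : ∃ i, b.repr (Additive.ofMul x) i ≠ 0 := by
    by_contra hcon
    push Not at hcon
    apply hx
    have h7 : Additive.ofMul x = 0 := by
      apply b.repr.injective
      ext i
      rw [hcon i, map_zero]; rfl
    exact h7
  obtain ⟨i, hi⟩ := h6
  refine ⟨MonoidHom.mk' (fun y => Multiplicative.ofAdd (b.repr (Additive.ofMul y) i)) ?_, x, ?_⟩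
  · intro y z
    rw [ofMul_mul, map_add]
    rfl
  · intro h
    exact hi h

theorem locInd_of_injective {G A : Type} [Group G] [Group A] (hA : LocInd A) (f : G →* A)
    (hf : Function.Injective f) : LocInd G := by
  intro H hH hne
  refine hA.of_hom hH f ?_
  intro hle
  apply hne
  rw [Subgroup.eq_bot_iff_forall]
  intro x hx
  exact hf (by rw [hle hx, map_one])

theorem locInd_int : LocInd (Multiplicative ℤ) := by
  intro H hH hne
  obtain ⟨ψ, hψ⟩ := hom_of_abelian H hH hne (fun x _ y _ => mul_comm x y) (by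
    intro x _ n hn hx
    have h1 : (n : ℤ) * Multiplicative.toAdd x = 0 := by
      have h2 := congrArg Multiplicative.toAdd hx
      rw [toAdd_pow, toAdd_one, nsmul_eq_mul] at h2
      exact h2
    rcases mul_eq_zero.1 h1 with h3 | h3
    · exact absurd (by exact_mod_cast h3) hn.ne'
    · exact h3)
  exact surj_of_ne ψ hψ

/-- The intersection of the normal subgroups with locally indicable quotients. -/
def Rad (G : Type) [Group G] : Subgroup G :=
  sInf {N | ∃ _ : N.Normal, LocInd (G ⧸ N)}

instance rad_normal (G : Type) [Group G] : (Rad G).Normal := by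
  constructor
  intro n hn g
  unfold Rad at hn ⊢
  rw [Subgroup.mem_sInf] at hn ⊢
  rintro N ⟨hN, hQ⟩
  exact hN.conj_mem n (hn N ⟨hN, hQ⟩) g

theorem rad_le {G A : Type} [Group G] [Group A] (f : G →* A) (hA : LocInd f.range) :
    Rad G ≤ f.ker := by
  refine sInf_le ⟨inferInstance, ?_⟩
  exact locInd_of_injective hA (QuotientGroup.kerLift f |>.codRestrict f.range (by
    intro x
    obtain ⟨g, rfl⟩ := QuotientGroup.mk_surjective x
    exact ⟨g, rfl⟩)) (by
    intro x y h
    exact QuotientGroup.kerLift_injective f (congrArg Subtype.val h))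

theorem rad_le' (G : Type) [Group G] (N : Subgroup G) [N.Normal] (h : LocInd (G ⧸ N)) :
    Rad G ≤ N := sInf_le ⟨inferInstance, h⟩

theorem locInd_rad (G : Type) [Group G] : LocInd (G ⧸ Rad G) := by
  intro H hH hne
  have h1 : ∃ x ∈ H, x ≠ 1 := by
    by_contra hcon
    push Not at hcon
    exact hne ((Subgroup.eq_bot_iff_forall H).2 hcon)
  obtain ⟨x, hx, hx1⟩ := h1
  obtain ⟨g, rfl⟩ := QuotientGroup.mk_surjective x
  have h2 : g ∉ Rad G := fun h => hx1 ((QuotientGroup.eq_one_iff g).2 h)
  unfold Rad at h2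
  rw [Subgroup.mem_sInf] at h2
  push Not at h2
  obtain ⟨N, ⟨hN, hQ⟩, hg⟩ := h2
  have hle : Rad G ≤ N := sInf_le ⟨hN, hQ⟩
  refine hQ.of_hom hH (QuotientGroup.map (Rad G) N (MonoidHom.id G) hle) ?_
  intro h
  have h3 := h hx
  rw [MonoidHom.mem_ker, QuotientGroup.map_mk] at h3
  exact hg ((QuotientGroup.eq_one_iff g).1 h3)

end Pool.Agent.K9h82.UC
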