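import Pool.Agent.K9h82.UC.Perf
import Pool.Agent.N819.UD.Main

/-!
# The equations in the two lowest degrees
-/

set_option autoImplicit false

namespace Pool.Agent.K9h82.UC

open Pool.Agent.TH625.LOG Pool.Agent.N819.UD

/-- the boundary of the chain `y` -/
def bdZ {V E G : Type} [Fintype E] [DecidableEq V] [Group G] (x : V → G) (p q lab : E → V)
    (y : E → G → ℤ) (v : V) (g : G) : ℤ :=
  ∑ e, ((if p e = v then y e g else 0) +
        (if lab e = v then y e (g * (x (p e))⁻¹) else 0) -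
        (if lab e = v then y e g else 0) -
        (if q e = v then y e (g * (x (lab e))⁻¹) else 0))

/-- the boundary of a chain of the graph with the edges `{p e, lab e}` -/
def bd0 {V E : Type} [Fintype E] [DecidableEq V] (p lab : E → V) (w : E → ℤ) (v : V) : ℤ :=
  ∑ e, w e * ((if p e = v then 1 else 0) - (if lab e = v then 1 else 0))

/-- the coefficient of the generator `x_w` in the leading form -/
def tw {V E : Type} [Fintype E] [DecidableEq V] (q lab : E → V) (a : V → ℤ) (z : E → ℤ) (w : V) :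
    ℤ :=
  ∑ e, if lab e = w then z e * (a (lab e) - a (q e)) else 0

section

variable {V E : Type} [Fintype V] [Fintype E] [DecidableEq V]

theorem sum_ind (u : V → ℤ) (w : E → V) (F : E → V → ℤ) :
    ∑ v, u v * ∑ e, (if w e = v then F e v else 0) = ∑ e, u (w e) * F e (w e) := by
  simp only [Finset.mul_sum, mul_ite, mul_zero]
  rw [Finset.sum_comm]
  refine Finset.sum_congr rfl fun e _ => ?_
  rw [Finset.sum_eq_single (w e)]
  · rw [if_pos rfl]
  · intro v _ hv
    rw [if_neg fun h => hv h.symm]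
  · intro h; exact absurd (Finset.mem_univ _) h

theorem pair_bd0 (p lab : E → V) (a : V → ℤ) (ha : ∀ e, a (p e) = a (lab e)) (w : E → ℤ) :
    ∑ v, a v * bd0 p lab w v = 0 := by
  have e1 := sum_ind a p (fun e _ => w e)
  have e2 := sum_ind a lab (fun e _ => w e)
  have h1 : ∀ v, bd0 p lab w v = ∑ e, (if p e = v then w e else 0) -
      ∑ e, (if lab e = v then w e else 0) := by
    intro v
    unfold bd0
    rw [← Finset.sum_sub_distrib]
    refine Finset.sum_congr rfl fun e _ => ?_
    rw [mul_sub, mul_ite, mul_ite, mul_one, mul_zero]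
  simp only [h1, mul_sub, Finset.sum_sub_distrib]
  rw [e1, e2, ← Finset.sum_sub_distrib]
  refine Finset.sum_eq_zero fun e _ => ?_
  rw [ha]
  ring

omit [Fintype V] in
theorem bd0_sub (p lab : E → V) (w w' : E → ℤ) (v : V) :
    bd0 p lab (fun e => w e - w' e) v = bd0 p lab w v - bd0 p lab w' v := by
  unfold bd0
  rw [← Finset.sum_sub_distrib]
  refine Finset.sum_congr rfl fun e _ => ?_
  ring

omit [Fintype V] in
theorem bd0_mul (p lab : E → V) (c : ℤ) (w : E → ℤ) (v : V) :
    bd0 p lab (fun e => c * w e) v = c * bd0 p lab w v := by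
  unfold bd0
  rw [Finset.mul_sum]
  refine Finset.sum_congr rfl fun e _ => ?_
  ring

variable {G : Type} [Group G] (x : V → G) (χ : G →* Multiplicative ℤ)
  (hχ : ∀ v, χ (x v) = Multiplicative.ofAdd 1) (p q lab : E → V) (y : E → G → ℤ)
  (d : ℤ) (hmin : ∀ e g, y e g ≠ 0 → d ≤ Multiplicative.toAdd (χ g))

include hχ hmin in
theorem lev_one (h : G) (hk : Multiplicative.toAdd (χ h) = d) (v : V) :
    bdZ x p q lab y v h = bd0 p lab (fun e => y e h) v := by
  have h0 : ∀ e v, y e (h * (x v)⁻¹) = 0 := by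
    intro e v
    by_contra hne
    have := hmin e _ hne
    rw [deg_inv x χ hχ] at this
    omega
  unfold bdZ bd0
  simp only [h0, ite_self, add_zero, sub_zero]
  refine Finset.sum_congr rfl fun e _ => ?_
  rw [mul_sub, mul_ite, mul_ite, mul_one, mul_zero]

include hχ hmin in
theorem lev_two (a : V → ℤ) (ha : ∀ e, a (p e) = a (lab e)) (h : G)
    (hh : Multiplicative.toAdd (χ h) = d + 1) :
    ∑ e, (a (lab e) - a (q e)) * y e (h * (x (lab e))⁻¹) =
      ∑ v, a v * (bdZ x p q lab y v h - bdZ x p q lab y v (h * (x v)⁻¹)) := by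
  have e1 := sum_ind a p (fun e _ => y e h)
  have e2 := sum_ind a lab (fun e _ => y e (h * (x (p e))⁻¹))
  have e3 := sum_ind a lab (fun e _ => y e h)
  have e4 := sum_ind a q (fun e _ => y e (h * (x (lab e))⁻¹))
  have e5 := sum_ind a p (fun e v => y e (h * (x v)⁻¹))
  have e6 := sum_ind a lab (fun e v => y e (h * (x v)⁻¹))
  have h1 : ∑ v, a v * bdZ x p q lab y v h =
      ∑ e, a (p e) * y e h + ∑ e, a (lab e) * y e (h * (x (p e))⁻¹) - ∑ e, a (lab e) * y e h -
        ∑ e, a (q e) * y e (h * (x (lab e))⁻¹) := by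
    rw [← e1, ← e2, ← e3, ← e4]
    unfold bdZ
    simp only [Finset.sum_add_distrib, Finset.sum_sub_distrib, mul_add, mul_sub]
  have h2 : ∑ v, a v * bdZ x p q lab y v (h * (x v)⁻¹) =
      ∑ e, a (p e) * y e (h * (x (p e))⁻¹) - ∑ e, a (lab e) * y e (h * (x (lab e))⁻¹) := by
    rw [← e5, ← e6, ← Finset.sum_sub_distrib]
    refine Finset.sum_congr rfl fun v _ => ?_
    rw [lev_one x χ hχ p q lab y d hmin (h * (x v)⁻¹) (by rw [deg_inv x χ hχ]; omega) v,
      ← mul_sub, ← Finset.sum_sub_distrib]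
    congr 1
    unfold bd0
    refine Finset.sum_congr rfl fun e _ => ?_
    rw [mul_sub, mul_ite, mul_ite, mul_one, mul_zero]
  simp only [mul_sub, Finset.sum_sub_distrib]
  rw [h1, h2]
  simp only [← Finset.sum_add_distrib, ← Finset.sum_sub_distrib]
  refine Finset.sum_congr rfl fun e _ => ?_
  rw [ha e]
  ring

/-- the sum of the leading form -/
theorem sum_tw (a : V → ℤ) (z ζ : E → ℤ) (c r : G → ℤ) (y : E → G → ℤ) (h : G)
    (hy : ∀ e, y e (h * (x (lab e))⁻¹) =
      c (h * (x (lab e))⁻¹) * z e + r (h * (x (lab e))⁻¹) * ζ e) :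
    ∑ e, (a (lab e) - a (q e)) * y e (h * (x (lab e))⁻¹) =
      ∑ w, tw q lab a z w * c (h * (x w)⁻¹) + ∑ w, tw q lab a ζ w * r (h * (x w)⁻¹) := by
  have h1 : ∀ (ζ : E → ℤ) (r : G → ℤ), ∑ w, tw q lab a ζ w * r (h * (x w)⁻¹) =
      ∑ e, ζ e * (a (lab e) - a (q e)) * r (h * (x (lab e))⁻¹) := by
    intro ζ r
    unfold tw
    simp only [Finset.sum_mul, ite_mul, zero_mul]
    rw [Finset.sum_comm]
    refine Finset.sum_congr rfl fun e _ => ?_
    rw [Finset.sum_ite_eq, if_pos (Finset.mem_univ _)]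
  rw [h1, h1, ← Finset.sum_add_distrib]
  refine Finset.sum_congr rfl fun e _ => ?_
  rw [hy]
  ring

end

end Pool.Agent.K9h82.UC
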