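import Pool.Agent.K9h82.UC.Ring
import Pool.Agent.R655.LI.Howie
import Pool.Agent.Helper777.Prof.P_magnus_ker

/-!
# The Magnus homomorphism and the relators of a labelled oriented tree
-/

set_option autoImplicit false

namespace Pool.Agent.K9h82.UC

open Pool.Agent.TH625.LOG
open Pool.Agent.Helper777.Prof (Wr mag mag_m magnus_ker)
open Pool.Agent.Helper777.Prof.Wr (mul_v mul_m inv_v inv_m one_v one_m)

section mag

variable {V E Q : Type} [DecidableEq V] [Group Q] (L : LOG V E) (π : FreeGroup V →* Q)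

/-- the Fox derivatives of the relator -/
noncomputable def fx (e : E) : V → MonoidAlgebra ℤ Q := (mag π (L.rel e)).v

theorem mag_of (v : V) : (mag π (FreeGroup.of v)).v = Pi.single v 1 := by
  unfold mag
  rw [FreeGroup.lift_apply_of]

theorem fx_eq (e : E) (h : π (L.rel e) = 1) :
    fx L π e = Pi.single (L.ini e) 1 +
      (MonoidAlgebra.of ℤ Q (π (FreeGroup.of (L.ini e)))) • Pi.single (L.lab e) 1 -
      (MonoidAlgebra.of ℤ Q (π (FreeGroup.of (L.lab e)))) • Pi.single (L.ter e) 1 -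
      Pi.single (L.lab e) 1 := by
  have h1 : π (FreeGroup.of (L.ini e)) * π (FreeGroup.of (L.lab e)) *
      (π (FreeGroup.of (L.ter e)))⁻¹ = π (FreeGroup.of (L.lab e)) := by
    unfold LOG.rel at h
    simp only [map_mul, map_inv] at h
    exact mul_inv_eq_one.1 h
  unfold fx LOG.rel
  simp only [map_mul, map_inv, mul_v, inv_v, mul_m, inv_m, mag_m, mag_of]
  have h2 : ∀ a b : Q, MonoidAlgebra.of ℤ Q a * MonoidAlgebra.of ℤ Q b =
      MonoidAlgebra.of ℤ Q (a * b) := fun a b => (map_mul _ _ _).symm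
  generalize π (FreeGroup.of (L.ini e)) = a at h1 ⊢
  generalize π (FreeGroup.of (L.lab e)) = b at h1 ⊢
  generalize π (FreeGroup.of (L.ter e)) = c at h1 ⊢
  have h3 : ∀ (x y : Q) (f : V → MonoidAlgebra ℤ Q), MonoidAlgebra.of ℤ Q x •
      (MonoidAlgebra.of ℤ Q y • f) = MonoidAlgebra.of ℤ Q (x * y) • f := by
    intro x y f
    rw [← mul_smul, h2]
  simp only [h2, smul_neg, h3, h1]
  rw [mul_inv_cancel, map_one, one_smul]
  abel

theorem ker_mul_v {a b : FreeGroup V} (ha : π a = 1) :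
    (mag π (a * b)).v = (mag π a).v + (mag π b).v := by
  rw [map_mul, mul_v, mag_m, ha, map_one, one_smul]

theorem mag_conj (w r : FreeGroup V) (hr : π r = 1) :
    (mag π (w * r * w⁻¹)).v = (MonoidAlgebra.of ℤ Q (π w)) • (mag π r).v := by
  rw [map_mul, map_mul, map_inv, mul_v, mul_v, inv_v, mul_m, mag_m, mag_m, hr, mul_one,
    smul_neg, ← mul_smul, ← map_mul, mul_inv_cancel, map_one, one_smul]
  abel

theorem mag_inv (r : FreeGroup V) (hr : π r = 1) : (mag π r⁻¹).v = - (mag π r).v := by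
  rw [map_inv, inv_v, mag_m, hr, inv_one, map_one, one_smul]

theorem ker_of (hrel : ∀ e, π (L.rel e) = 1) {r : FreeGroup V}
    (hr : r ∈ Subgroup.normalClosure (Set.range L.rel)) : π r = 1 := by
  have h1 : Subgroup.normalClosure (Set.range L.rel) ≤ π.ker := by
    apply Subgroup.normalClosure_le_normal
    rintro _ ⟨e, rfl⟩
    exact hrel e
  exact h1 hr

/-- the Fox derivatives of a consequence of the relators -/
theorem mag_mem [Fintype E] (hrel : ∀ e, π (L.rel e) = 1) (r : FreeGroup V)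
    (hr : r ∈ Subgroup.normalClosure (Set.range L.rel)) :
    ∃ β : E → MonoidAlgebra ℤ Q, (mag π r).v = ∑ e, β e • fx L π e := by
  classical
  have hker : ∀ r, r ∈ Subgroup.normalClosure (Set.range L.rel) → π r = 1 :=
    fun r hr => ker_of L π hrel hr
  refine Subgroup.closure_induction (G := FreeGroup V) (k := Group.conjugatesOfSet (Set.range L.rel))
    (p := fun r _ => ∃ β : E → MonoidAlgebra ℤ Q, (mag π r).v = ∑ e, β e • fx L π e)
    ?_ ?_ ?_ ?_ hr
  · intro r hr
    obtain ⟨r0, ⟨e, rfl⟩, hc⟩ := Group.mem_conjugatesOfSet_iff.1 hr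
    obtain ⟨w, rfl⟩ := isConj_iff.1 hc
    refine ⟨Pi.single e (MonoidAlgebra.of ℤ Q (π w)), ?_⟩
    rw [mag_conj π w _ (hrel e), Finset.sum_eq_single e]
    · rw [Pi.single_eq_same]; rfl
    · intro f _ hf
      rw [Pi.single_eq_of_ne hf, zero_smul]
    · intro h; exact absurd (Finset.mem_univ _) h
  · refine ⟨0, ?_⟩
    rw [map_one, one_v]
    simp
  · rintro a b ha hb ⟨β, hβ⟩ ⟨γ, hγ⟩
    refine ⟨β + γ, ?_⟩
    rw [ker_mul_v π (hker a ha), hβ, hγ, ← Finset.sum_add_distrib]
    refine Finset.sum_congr rfl fun e _ => ?_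
    rw [Pi.add_apply, add_smul]
  · rintro a ha ⟨β, hβ⟩
    refine ⟨-β, ?_⟩
    rw [mag_inv π a (hker a ha), hβ, ← Finset.sum_neg_distrib]
    refine Finset.sum_congr rfl fun e _ => ?_
    rw [Pi.neg_apply, neg_smul]

/-- the values of the Magnus homomorphism on the consequences of the relators -/
noncomputable def consV (hrel : ∀ e, π (L.rel e) = 1) : AddSubgroup (V → MonoidAlgebra ℤ Q) where
  carrier := {x | ∃ r ∈ Subgroup.normalClosure (Set.range L.rel), (mag π r).v = x}
  add_mem' := by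
    rintro _ _ ⟨r, hr, rfl⟩ ⟨s, hs, rfl⟩
    exact ⟨r * s, mul_mem hr hs, ker_mul_v π (ker_of L π hrel hr)⟩
  zero_mem' := ⟨1, one_mem _, by rw [map_one, one_v]⟩
  neg_mem' := by
    rintro _ ⟨r, hr, rfl⟩
    exact ⟨r⁻¹, inv_mem hr, mag_inv π r (ker_of L π hrel hr)⟩

theorem mem_mag [Fintype E] (hπ : Function.Surjective π) (hrel : ∀ e, π (L.rel e) = 1)
    (β : E → MonoidAlgebra ℤ Q) :
    ∃ r ∈ Subgroup.normalClosure (Set.range L.rel), (mag π r).v = ∑ e, β e • fx L π e := by
  change ∑ e, β e • fx L π e ∈ consV L π hrel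
  refine sum_mem fun e _ => ?_
  induction β e using MonoidAlgebra.induction_linear with
  | zero =>
    rw [zero_smul]
    exact zero_mem _
  | add a b ha hb =>
    rw [add_smul]
    exact add_mem ha hb
  | single g z =>
    obtain ⟨w, rfl⟩ := hπ g
    have h1 : MonoidAlgebra.single (π w) z = z • MonoidAlgebra.of ℤ Q (π w) := by
      rw [MonoidAlgebra.of_apply, MonoidAlgebra.smul_single, smul_eq_mul, mul_one]
    have h2 : (z • MonoidAlgebra.of ℤ Q (π w)) • fx L π e =
        z • (MonoidAlgebra.of ℤ Q (π w) • fx L π e) := smul_assoc _ _ _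
    rw [h1, h2]
    refine zsmul_mem ?_ z
    refine ⟨w * L.rel e * w⁻¹, ?_, mag_conj π w _ (hrel e)⟩
    exact Subgroup.normalClosure_normal.conj_mem (L.rel e)
      (Subgroup.subset_normalClosure (Set.mem_range_self e)) w

theorem mag_comm_ker (c : FreeGroup V) (hc : c ∈ ⁅π.ker, π.ker⁆) : mag π c = 1 := by
  have h1 : ⁅π.ker, π.ker⁆ ≤ (mag π).ker := by
    rw [Subgroup.commutator_le]
    intro a ha b hb
    rw [MonoidHom.mem_ker, map_commutatorElement, commutatorElement_eq_one_iff_mul_comm]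
    have ha' : (mag π a).m = 1 := by rw [mag_m]; exact ha
    have hb' : (mag π b).m = 1 := by rw [mag_m]; exact hb
    apply Wr.ext
    · rw [mul_v, mul_v, ha', hb', map_one, one_smul, one_smul, add_comm]
    · rw [mul_m, mul_m, ha', hb']
  exact h1 hc

end mag

end Pool.Agent.K9h82.UC
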