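import Pool.Agent.K9h82.UC.LI1

/-!
# Cancellable elements of group rings over locally indicable groups
-/

set_option autoImplicit false

namespace Pool.Agent.K9h82.UC

open Pool.Agent.TH625.LOG

section ring

variable {G Q ι : Type} [Group G] [Group Q]

/-- Multiplication by the element `∑ n i x i` of the group ring is injective. -/
def Canc (x : ι → G) (n : ι → ℤ) (I : Finset ι) : Prop :=
  ∀ y : G → ℤ, {g | y g ≠ 0}.Finite → (∀ g, ∑ i ∈ I, n i * y (g * (x i)⁻¹) = 0) → ∀ g, y g = 0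

theorem face {Ω : Type} [LinearOrder Ω] (x : ι → G) (n : ι → ℤ) (I I' : Finset ι) (hI : I' ⊆ I)
    (ℓ τ : G → Ω) (h1 : ∀ g, ∀ i ∈ I', ℓ (g * (x i)⁻¹) = τ g)
    (h2 : ∀ g, ∀ i ∈ I, i ∉ I' → τ g < ℓ (g * (x i)⁻¹)) (y r : G → ℤ)
    (hy : ∀ g, ∑ i ∈ I, n i * y (g * (x i)⁻¹) = r g) (M : Ω) (hM : ∀ g, y g ≠ 0 → ℓ g ≤ M) (g : G) :
    ∑ i ∈ I', n i * (if ℓ (g * (x i)⁻¹) = M then y (g * (x i)⁻¹) else 0) =
      if τ g = M then r g else 0 := by
  by_cases h : τ g = M
  · rw [if_pos h, ← hy g]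
    refine Eq.trans (Finset.sum_congr rfl fun i hi => ?_) (Finset.sum_subset hI fun i hi hi' => ?_)
    · rw [h1 g i hi, if_pos h]
    · have h3 : y (g * (x i)⁻¹) = 0 := by
        by_contra h4
        exact absurd (h2 g i hi hi') (not_lt.2 (h ▸ hM _ h4))
      rw [h3, mul_zero]
  · rw [if_neg h]
    refine Finset.sum_eq_zero fun i hi => ?_
    rw [h1 g i hi, if_neg h, mul_zero]

theorem canc_face {Ω : Type} [LinearOrder Ω] (x : ι → G) (n : ι → ℤ) (I I' : Finset ι)
    (hI : I' ⊆ I) (ℓ τ : G → Ω) (h1 : ∀ g, ∀ i ∈ I', ℓ (g * (x i)⁻¹) = τ g)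
    (h2 : ∀ g, ∀ i ∈ I, i ∉ I' → τ g < ℓ (g * (x i)⁻¹)) (hc : Canc x n I') : Canc x n I := by
  intro y hfin hy
  by_contra hne
  push Not at hne
  obtain ⟨g0, hg0⟩ := hne
  obtain ⟨g1, hg1, hmax⟩ := Set.exists_max_image {g | y g ≠ 0} ℓ hfin ⟨g0, hg0⟩
  have h3 := hc (fun g => if ℓ g = ℓ g1 then y g else 0) (hfin.subset (by
    intro g hg h
    apply hg
    simp only [h, ite_self])) (by
    intro g
    have h4 := face x n I I' hI ℓ τ h1 h2 y (fun _ => 0) hy (ℓ g1) (fun g hg => hmax g hg) g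
    rw [ite_self] at h4
    exact h4) g1
  simp only [if_true] at h3
  exact hg1 h3

/-- the level function on the left cosets of a subgroup -/
theorem exists_lev (hQ : LocInd Q) (B : Subgroup Q) (hB : B.FG) (hne : B ≠ ⊥) :
    ∃ (Ψ : Q → ℤ) (ψ : B →* Multiplicative ℤ), (∃ b, ψ b ≠ 1) ∧
      (∀ q (b : B), Ψ (q * b) = Ψ q + Multiplicative.toAdd (ψ b)) ∧
      ∀ b : B, Ψ b = Multiplicative.toAdd (ψ b) := by
  obtain ⟨ψ, hψ⟩ := hQ B hB hne
  have hr : ∀ q : Q, ((QuotientGroup.mk q : Q ⧸ B).out)⁻¹ * q ∈ B := by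
    intro q
    obtain ⟨h, hh⟩ := QuotientGroup.mk_out_eq_mul B q
    rw [hh, mul_inv_rev, mul_assoc, inv_mul_cancel, mul_one]
    exact B.inv_mem h.2
  let Ψ0 : Q → ℤ := fun q => Multiplicative.toAdd (ψ ⟨_, hr q⟩)
  have h1 : ∀ q (b : B), Ψ0 (q * b) = Ψ0 q + Multiplicative.toAdd (ψ b) := by
    intro q b
    have h2 : (QuotientGroup.mk (q * b) : Q ⧸ B) = QuotientGroup.mk q := by
      rw [QuotientGroup.mk_mul_of_mem q b.2]
    change Multiplicative.toAdd (ψ ⟨_, hr (q * b)⟩) = Multiplicative.toAdd (ψ ⟨_, hr q⟩) + _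
    rw [← toAdd_mul, ← map_mul]
    congr 2
    apply Subtype.ext
    simp only [Subgroup.coe_mul, h2, mul_assoc]
  refine ⟨fun q => Ψ0 q - Ψ0 1, ψ, ?_, ?_, ?_⟩
  · obtain ⟨b, hb⟩ := hψ (Multiplicative.ofAdd 1)
    refine ⟨b, fun h => ?_⟩
    rw [h] at hb
    exact absurd (congrArg Multiplicative.toAdd hb) (by simp)
  · intro q b
    simp only [h1]
    ring
  · intro b
    have h2 := h1 1 b
    rw [one_mul] at h2
    simp only [h2]
    ring

/-- Reduction to the classes of equal images in a locally indicable group. -/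
theorem canc_class (hQ : LocInd Q) (π : G →* Q) (x : ι → G) (n : ι → ℤ) :
    ∀ (m : ℕ) (I : Finset ι), I.card = m → I.Nonempty →
      (∀ J ⊆ I, J.Nonempty → (∀ i ∈ J, ∀ j ∈ J, π (x i) = π (x j)) → Canc x n J) → Canc x n I := by
  classical
  intro m
  induction m using Nat.strong_induction_on with
  | _ m ih =>
    intro I hcard hne hJ
    by_cases hconst : ∀ i ∈ I, ∀ j ∈ I, π (x i) = π (x j)
    · exact hJ I (Finset.Subset.refl I) hne hconst
    obtain ⟨i0, hi0⟩ := hne
    let B : Subgroup Q := Subgroup.closure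
      ((I.image fun i => π (x i0) * (π (x i))⁻¹ : Finset Q) : Set Q)
    have hmem : ∀ i ∈ I, π (x i0) * (π (x i))⁻¹ ∈ B := by
      intro i hi
      apply Subgroup.subset_closure
      rw [Finset.coe_image]
      exact ⟨i, hi, rfl⟩
    have hB : B ≠ ⊥ := by
      intro h
      apply hconst
      have h1 : ∀ i ∈ I, π (x i0) = π (x i) := by
        intro i hi
        have h2 := hmem i hi
        rw [h, Subgroup.mem_bot, mul_inv_eq_one] at h2
        exact h2
      intro i hi j hj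
      rw [← h1 i hi, ← h1 j hj]
    obtain ⟨Ψ, ψ, ⟨b, hb⟩, hΨ, -⟩ := exists_lev hQ B ⟨_, rfl⟩ hB
    -- the shifts
    let δ : ι → ℤ := fun i => if hi : i ∈ I then Multiplicative.toAdd (ψ ⟨_, hmem i hi⟩) else 0
    have hδ : ∀ g, ∀ i ∈ I, Ψ (π (g * (x i)⁻¹)) = Ψ (π (g * (x i0)⁻¹)) + δ i := by
      intro g i hi
      have h1 := hΨ (π (g * (x i0)⁻¹)) ⟨_, hmem i hi⟩
      have h2 : π (g * (x i)⁻¹) = π (g * (x i0)⁻¹) * (π (x i0) * (π (x i))⁻¹) := by
        rw [map_mul, map_mul, map_inv, map_inv]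
        group
      rw [h2, h1]
      change _ = _ + (if hi : i ∈ I then Multiplicative.toAdd (ψ ⟨_, hmem i hi⟩) else 0)
      rw [dif_pos hi]
    obtain ⟨i1, hi1, hmin⟩ := Finset.exists_min_image I δ ⟨i0, hi0⟩
    let I' : Finset ι := I.filter fun i => δ i = δ i1
    have hI' : I' ⊆ I := Finset.filter_subset _ _
    have hlt : I'.card < m := by
      rw [← hcard]
      apply Finset.card_lt_card
      refine ⟨hI', fun hsub => ?_⟩
      -- all shifts are equal, hence zero
      have h1 : ∀ i ∈ I, δ i = δ i1 := fun i hi => (Finset.mem_filter.1 (hsub hi)).2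
      have h2 : δ i0 = 0 := by
        have h3 := hδ 1 i0 hi0
        omega
      have h4 : ∀ i ∈ I, δ i = 0 := fun i hi => by rw [h1 i hi, ← h1 i0 hi0, h2]
      have h5 : ∀ c ∈ B, ∀ hc : c ∈ B, ψ ⟨c, hc⟩ = 1 := by
        intro c hc
        refine Subgroup.closure_induction (p := fun c _ => ∀ hc : c ∈ B, ψ ⟨c, hc⟩ = 1)
          ?_ ?_ ?_ ?_ hc
        · intro c hc hc'
          rw [Finset.mem_coe] at hc
          obtain ⟨i, hi, rfl⟩ := Finset.mem_image.1 hc
          have h6 := h4 i hi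
          change (if hi : i ∈ I then Multiplicative.toAdd (ψ ⟨_, hmem i hi⟩) else 0) = 0 at h6
          rw [dif_pos hi] at h6
          exact h6
        · intro hc
          exact map_one ψ
        · intro c d hc hd h6 h7 hcd
          have h8 := map_mul ψ ⟨c, hc⟩ ⟨d, hd⟩
          rw [h6, h7, mul_one] at h8
          exact h8
        · intro c hc h6 hc'
          have h8 := map_inv ψ ⟨c, hc⟩
          rw [h6, inv_one] at h8
          exact h8
      exact hb (h5 b b.2 b.2)
    refine canc_face x n I I' hI' (fun g => Ψ (π g)) (fun g => Ψ (π (g * (x i0)⁻¹)) + δ i1) ?_ ?_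
      (ih _ hlt I' rfl ⟨i1, Finset.mem_filter.2 ⟨hi1, rfl⟩⟩ fun J hJ' => hJ J (hJ'.trans hI'))
    · intro g i hi
      rw [hδ g i (hI' hi), (Finset.mem_filter.1 hi).2]
    · intro g i hi hi'
      rw [hδ g i hi]
      have h1 := hmin i hi
      have h2 : δ i ≠ δ i1 := fun h => hi' (Finset.mem_filter.2 ⟨hi, h⟩)
      omega

/-- Distinct images in a locally indicable group. -/
theorem canc_inj (hQ : LocInd Q) (π : G →* Q) (x : ι → G) (n : ι → ℤ) (I : Finset ι)
    (hI : I.Nonempty) (hn : ∀ i ∈ I, n i ≠ 0)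
    (hinj : ∀ i ∈ I, ∀ j ∈ I, π (x i) = π (x j) → i = j) : Canc x n I := by
  refine canc_class hQ π x n _ I rfl hI ?_
  rintro J hJ ⟨j, hj⟩ hconst y - hy g
  have h1 := hy (g * x j)
  rw [Finset.sum_eq_single_of_mem j hj, mul_inv_cancel_right] at h1
  · exact (mul_eq_zero.1 h1).resolve_left (hn j (hJ hj))
  · intro i hi hij
    exact absurd (hinj i (hJ hi) j (hJ hj) (hconst i hi j hj)) hij

/-- The coefficients of equal elements have the same sign. -/
theorem canc_sign (hQ : LocInd Q) (x : ι → Q) (n : ι → ℤ) (I : Finset ι)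
    (hI : I.Nonempty) (hs : ∀ i ∈ I, ∀ j ∈ I, x i = x j → 0 < n i * n j) : Canc x n I := by
  refine canc_class hQ (MonoidHom.id Q) x n _ I rfl hI ?_
  rintro J hJ ⟨j, hj⟩ hconst y - hy g
  have h1 := hy (g * x j)
  have h2 : ∑ i ∈ J, n i * y (g * x j * (x i)⁻¹) = (∑ i ∈ J, n i) * y g := by
    rw [Finset.sum_mul]
    refine Finset.sum_congr rfl fun i hi => ?_
    have h3 : x i = x j := hconst i hi j hj
    rw [h3, mul_inv_cancel_right]
  rw [h2] at h1
  refine (mul_eq_zero.1 h1).resolve_left fun h3 => ?_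
  have h4 : 0 < n j * ∑ i ∈ J, n i := by
    rw [Finset.mul_sum]
    exact Finset.sum_pos (fun i hi => hs j (hJ hj) i (hJ hi) (hconst j hj i hi)) ⟨j, hj⟩
  rw [h3, mul_zero] at h4
  exact lt_irrefl _ h4

end ring

section core

variable {Q ι : Type} [Group Q]

theorem core_nonpos [DecidableEq Q] (hQ : LocInd Q) (x : ι → Q) (n n' : ι → ℤ) (I : Finset ι) (i0 : ι)
    (hi0 : i0 ∈ I) (hs : ∀ i ∈ I, ∀ j ∈ I, x i = x j → 0 < n i * n j) (y : Q → ℤ)
    (hfin : {g | y g ≠ 0}.Finite)
    (hy : ∀ g, ∑ i ∈ I, n i * y (g * (x i)⁻¹) = ∑ i ∈ I, if g = x i then n' i else 0)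
    (ℓ : Q → ℤ) (δ : ι → ℤ) (hδ : ∀ g, ∀ i ∈ I, ℓ (g * (x i)⁻¹) = ℓ (g * (x i0)⁻¹) + δ i)
    (h1 : ℓ 1 = 0) (g : Q) (hg : y g ≠ 0) : ℓ g ≤ 0 := by
  obtain ⟨g1, hg1, hmax⟩ := Set.exists_max_image {g | y g ≠ 0} ℓ hfin ⟨g, hg⟩
  refine le_trans (hmax g hg) ?_
  by_contra hpos
  push Not at hpos
  obtain ⟨i1, hi1, hmin⟩ := Finset.exists_min_image I δ ⟨i0, hi0⟩
  let I' : Finset ι := I.filter fun i => δ i = δ i1
  have hI' : I' ⊆ I := Finset.filter_subset _ _
  have hz := canc_sign hQ x n I' ⟨i1, Finset.mem_filter.2 ⟨hi1, rfl⟩⟩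
    (fun i hi j hj => hs i (hI' hi) j (hI' hj))
    (fun g => if ℓ g = ℓ g1 then y g else 0) (hfin.subset (by
      intro g hg h
      apply hg
      simp only [h, ite_self])) (by
      intro g
      have h4 := face x n I I' hI' ℓ (fun g => ℓ (g * (x i0)⁻¹) + δ i1) (by
        intro g i hi
        rw [hδ g i (hI' hi), (Finset.mem_filter.1 hi).2]) (by
        intro g i hi hi'
        rw [hδ g i hi]
        have h1 := hmin i hi
        have h2 : δ i ≠ δ i1 := fun h => hi' (Finset.mem_filter.2 ⟨hi, h⟩)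
        omega) y _ hy (ℓ g1) (fun g hg => hmax g hg) g
      refine Eq.trans h4 ?_
      by_cases h5 : ℓ (g * (x i0)⁻¹) + δ i1 = ℓ g1
      · rw [if_pos h5]
        refine Finset.sum_eq_zero fun i hi => ?_
        by_cases h6 : g = x i
        · exfalso
          subst h6
          have h7 := hδ (x i) i hi
          rw [mul_inv_cancel, h1] at h7
          have h8 := hmin i hi
          omega
        · rw [if_neg h6]
      · rw [if_neg h5]) g1
  simp only [if_true] at hz
  exact hg1 hz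

/-- **The core lemma.** -/
theorem core [DecidableEq Q] [DecidableEq ι] (hQ : LocInd Q) (x : ι → Q) (n n' : ι → ℤ) : ∀ (m : ℕ) (I : Finset ι), I.card = m →
    I.Nonempty → (∀ i ∈ I, ∀ j ∈ I, x i = x j → 0 < n i * n j) →
    (∀ i ∈ I, n' i = 0 ∨ n' i = n i) → ∀ y : Q → ℤ,
    {g | y g ≠ 0}.Finite →
    (∀ g, ∑ i ∈ I, n i * y (g * (x i)⁻¹) = ∑ i ∈ I, if g = x i then n' i else 0) →
    (∀ g, y g = 0) ∨ ∀ g, y g = if g = 1 then 1 else 0 := by
  intro m
  induction m using Nat.strong_induction_on with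
  | _ m ih =>
    intro I hcard hne hs hn' y hfin hy
    obtain ⟨i0, hi0⟩ := hne
    let S : Finset Q := (I.image fun i => x i0 * (x i)⁻¹) ∪ hfin.toFinset
    let B : Subgroup Q := Subgroup.closure (S : Set Q)
    have hmem : ∀ i ∈ I, x i0 * (x i)⁻¹ ∈ B := by
      intro i hi
      apply Subgroup.subset_closure
      rw [Finset.mem_coe]
      exact Finset.mem_union_left _ (Finset.mem_image.2 ⟨i, hi, rfl⟩)
    have hmem' : ∀ g, y g ≠ 0 → g ∈ B := by
      intro g hg
      apply Subgroup.subset_closure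
      rw [Finset.mem_coe]
      exact Finset.mem_union_right _ (hfin.mem_toFinset.2 hg)
    by_cases hB : B = ⊥
    · have h1 : ∀ i ∈ I, x i = x i0 := by
        intro i hi
        have h2 := hmem i hi
        rw [hB, Subgroup.mem_bot, mul_inv_eq_one] at h2
        exact h2.symm
      have h2 : ∀ g, g ≠ 1 → y g = 0 := by
        intro g hg
        by_contra h3
        have h4 := hmem' g h3
        rw [hB, Subgroup.mem_bot] at h4
        exact hg h4
      have h3 := hy (x i0)
      have h4 : ∑ i ∈ I, n i * y (x i0 * (x i)⁻¹) = (∑ i ∈ I, n i) * y 1 := by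
        rw [Finset.sum_mul]
        refine Finset.sum_congr rfl fun i hi => ?_
        rw [h1 i hi, mul_inv_cancel]
      have h5 : ∑ i ∈ I, (if x i0 = x i then n' i else 0) = ∑ i ∈ I, n' i := by
        refine Finset.sum_congr rfl fun i hi => ?_
        rw [h1 i hi, if_pos rfl]
      rw [h4, h5] at h3
      have hpos : ∀ i ∈ I, 0 < n i0 * n i := fun i hi => hs i0 hi0 i hi (h1 i hi).symm
      have h6 : 0 < n i0 * ∑ i ∈ I, n i := by
        rw [Finset.mul_sum]
        exact Finset.sum_pos hpos ⟨i0, hi0⟩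
      have h7 : 0 ≤ n i0 * ∑ i ∈ I, n' i := by
        rw [Finset.mul_sum]
        refine Finset.sum_nonneg fun i hi => ?_
        rcases hn' i hi with h8 | h8
        · rw [h8, mul_zero]
        · rw [h8]; exact le_of_lt (hpos i hi)
      have h8 : n i0 * ∑ i ∈ I, n' i ≤ n i0 * ∑ i ∈ I, n i := by
        rw [Finset.mul_sum, Finset.mul_sum]
        refine Finset.sum_le_sum fun i hi => ?_
        rcases hn' i hi with h9 | h9
        · rw [h9, mul_zero]; exact le_of_lt (hpos i hi)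
        · rw [h9]
      have h3' : (n i0 * ∑ i ∈ I, n i) * y 1 = n i0 * ∑ i ∈ I, n' i := by
        rw [← h3]; ring
      have h9 : 0 ≤ y 1 := by
        by_contra h
        push Not at h
        nlinarith
      have h10 : y 1 ≤ 1 := by
        by_contra h
        push Not at h
        nlinarith
      have h11 : y 1 = 0 ∨ y 1 = 1 := by omega
      rcases h11 with h11 | h11
      · left
        intro g
        by_cases hg : g = 1
        · rw [hg, h11]
        · exact h2 g hg
      · right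
        intro g
        by_cases hg : g = 1
        · rw [hg, h11, if_pos rfl]
        · rw [h2 g hg, if_neg hg]
    obtain ⟨Ψ, ψ, ⟨b, hb⟩, hΨ, hΨ'⟩ := exists_lev hQ B ⟨_, rfl⟩ hB
    let δ : ι → ℤ := fun i => if hi : i ∈ I then Multiplicative.toAdd (ψ ⟨_, hmem i hi⟩) else 0
    have hδ0 : ∀ i, ∀ hi : i ∈ I, δ i = Multiplicative.toAdd (ψ ⟨_, hmem i hi⟩) := by
      intro i hi
      change (if hi : i ∈ I then Multiplicative.toAdd (ψ ⟨_, hmem i hi⟩) else 0) = _
      rw [dif_pos hi]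
    have hδ : ∀ g, ∀ i ∈ I, Ψ (g * (x i)⁻¹) = Ψ (g * (x i0)⁻¹) + δ i := by
      intro g i hi
      have h1 := hΨ (g * (x i0)⁻¹) ⟨_, hmem i hi⟩
      have h2 : g * (x i)⁻¹ = g * (x i0)⁻¹ * (x i0 * (x i)⁻¹) := by group
      rw [h2, h1, hδ0 i hi]
    have hΨ1 : Ψ 1 = 0 := by
      have h1 := hΨ' 1
      rw [map_one, toAdd_one] at h1
      exact h1
    have hle := core_nonpos hQ x n n' I i0 hi0 hs y hfin hy Ψ δ hδ hΨ1
    have hge := core_nonpos hQ x n n' I i0 hi0 hs y hfin hy (fun g => - Ψ g) (fun i => - δ i)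
      (by
        intro g i hi
        rw [hδ g i hi]
        ring) (by simp only [hΨ1, neg_zero])
    have hz : ∀ g, y g ≠ 0 → Ψ g = 0 := by
      intro g hg
      have h1 := hle g hg
      have h2 := hge g hg
      omega
    have hδi0 : δ i0 = 0 := by
      have h3 := hδ 1 i0 hi0
      omega
    -- a smaller set
    let J : Finset ι := I.filter fun i => δ i = 0
    have hJ : J ⊆ I := Finset.filter_subset _ _
    have hlt : J.card < m := by
      rw [← hcard]
      apply Finset.card_lt_card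
      refine ⟨hJ, fun hsub => ?_⟩
      have h5 : ∀ c ∈ B, ∀ hc : c ∈ B, ψ ⟨c, hc⟩ = 1 := by
        intro c hc
        refine Subgroup.closure_induction (p := fun c _ => ∀ hc : c ∈ B, ψ ⟨c, hc⟩ = 1)
          ?_ ?_ ?_ ?_ hc
        · intro c hc hc'
          rw [Finset.mem_coe] at hc
          rcases Finset.mem_union.1 hc with hc | hc
          · obtain ⟨i, hi, rfl⟩ := Finset.mem_image.1 hc
            have h6 := (Finset.mem_filter.1 (hsub hi)).2
            rw [hδ0 i hi] at h6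
            exact h6
          · have h6 := hz c (hfin.mem_toFinset.1 hc)
            rw [hΨ' ⟨c, hc'⟩] at h6
            exact h6
        · intro hc
          exact map_one ψ
        · intro c d hc hd h6 h7 hcd
          have h8 := map_mul ψ ⟨c, hc⟩ ⟨d, hd⟩
          rw [h6, h7, mul_one] at h8
          exact h8
        · intro c hc h6 hc'
          have h8 := map_inv ψ ⟨c, hc⟩
          rw [h6, inv_one] at h8
          exact h8
      exact hb (h5 b b.2 b.2)
    refine ih _ hlt J rfl ⟨i0, Finset.mem_filter.2 ⟨hi0, hδi0⟩⟩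
      (fun i hi j hj => hs i (hJ hi) j (hJ hj))
      (fun i hi => hn' i (hJ hi)) y hfin ?_
    intro g
    have hx : ∀ i ∈ I, g = x i → Ψ (g * (x i0)⁻¹) + δ i = 0 := by
      intro i hi hg
      have h7 := hδ g i hi
      rw [hg, mul_inv_cancel, hΨ1] at h7
      rw [hg, ← h7]
    have hy0 : ∀ i ∈ I, y (g * (x i)⁻¹) ≠ 0 → Ψ (g * (x i0)⁻¹) + δ i = 0 := by
      intro i hi h
      rw [← hδ g i hi]
      exact hz _ h
    by_cases hg : Ψ (g * (x i0)⁻¹) = 0
    · have h1 : ∑ i ∈ J, n i * y (g * (x i)⁻¹) = ∑ i ∈ I, n i * y (g * (x i)⁻¹) := by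
        refine Finset.sum_subset hJ fun i hi hi' => ?_
        have h2 : y (g * (x i)⁻¹) = 0 := by
          by_contra h3
          have h4 := hy0 i hi h3
          exact hi' (Finset.mem_filter.2 ⟨hi, by omega⟩)
        rw [h2, mul_zero]
      have h2 : ∑ i ∈ J, (if g = x i then n' i else 0) = ∑ i ∈ I, if g = x i then n' i else 0 := by
        refine Finset.sum_subset hJ fun i hi hi' => ?_
        refine if_neg fun h3 => ?_
        have h4 := hx i hi h3
        exact hi' (Finset.mem_filter.2 ⟨hi, by omega⟩)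
      rw [h1, h2, hy g]
    · rw [Finset.sum_eq_zero, Finset.sum_eq_zero]
      · intro i hi
        refine if_neg fun h3 => ?_
        have h4 := hx i (hJ hi) h3
        have h5 := (Finset.mem_filter.1 hi).2
        omega
      · intro i hi
        have h2 : y (g * (x i)⁻¹) = 0 := by
          by_contra h3
          have h4 := hy0 i (hJ hi) h3
          have h5 := (Finset.mem_filter.1 hi).2
          omega
        rw [h2, mul_zero]

end core

end Pool.Agent.K9h82.UC
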